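import Pool.Agent.H98.TY.ROT

/-! # [H98 TY MDV] All rotations are branches: `e m ≤ D`

Model: `m_le_D` in `Pool/Agent/H87/TX/MLD.lean`. `P = (fI D F).map (tq (e m) q) = ∏_k (X - C (ZV (j k)))`, `ω = rou (e m)`, `Z0 = ZV (j k0)`. For `l : Fin (e m)`: `rescale (ω^l)` fixes `tq (e m) q` (as `(ω^l)^(e m) = 1`), hence `P`, so `rescale (ω^l) Z0` is a root of `P`, i.e. `= ZV (j (k l))`.
The map `k` is injective: let `k l = k l'`, `l ≤ l'` (`le_total`, symmetric). Then `rescale (ω^l) Z0 = rescale (ω^l') Z0 = rescale (ω^l) (rescale (ω^(l'-l)) Z0)`, and `rescale (ω^l)` is injective (`ω ≠ 0`, coefficients), so `rescale ζ Z0 = Z0`, `ζ = ω^(l'-l)`. `rot_zv` (`p = j k0`) and `hZ`: `(i, p.2 * π⁻¹) = p`, so `i = p.1`, `π = 1`;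
so `ζ ω^(p.1) = ω^(p.1) ξ`, `ζ = ξ`, and `rescale ξ (x u) = x (π u) = x u` for all `u`, `ξ^e = 1`, so `ξ = 1` by `hmin`. So `ω^(l'-l) = 1` with `l' - l < e m`: `l = l'` (`IsPrimitiveRoot.pow_ne_one_of_pos_of_lt` or `pow_inj`). `Fintype.card_le_of_injective`. -/

namespace Pool.Agent.H98.TY

open Finset Polynomial Pool.Agent.H72.ES Pool.Agent.H87.SA2 Pool.Agent.H8.AW Pool.Agent.H52.AC
  Pool.Agent.H97.NW Pool.Agent.H87.TW Pool.Agent.H87.TX

theorem em_le_D {g : ℤ[X][X]} {n m mu D : ℕ} (hm : 1 ≤ m) (pd : PData g n) (hmin : Mnl pd)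
    (F : ℕ → ℕ → ℤ) (W : Fin n → ℂ) (hZ : Function.Injective (ZV pd.e m pd.q mu W pd.x))
    (j : Fin D → Fin m × Equiv.Perm (Fin n)) (k0 : Fin D)
    (hs : (fI D F).map (tq (pd.e * m) pd.q) =
      ∏ k, (X - C (ZV pd.e m pd.q mu W pd.x (j k)))) : pd.e * m ≤ D := by
  classical
  obtain ⟨ω, hω⟩ : ∃ ω, ω = rou (pd.e * m) := ⟨_, rfl⟩
  have hem : 1 ≤ pd.e * m := Nat.mul_pos pd.e_pos hm
  have hprim : IsPrimitiveRoot ω (pd.e * m) := by
    rw [hω]
    exact rou_prim hem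
  have hω0 : ω ≠ 0 := hprim.ne_zero (by omega)
  obtain ⟨Z, hZd⟩ : ∃ Z, Z = ZV pd.e m pd.q mu W pd.x := ⟨_, rfl⟩
  rw [← hZd] at hs hZ
  -- the rotations permute the branches
  have hrot : ∀ ζ : ℂ, ζ ^ (pd.e * m) = 1 → ∃ k : Fin D,
      PowerSeries.rescale ζ (Z (j k0)) = Z (j k) := by
    intro ζ hζ
    have hcomp : (PowerSeries.rescale ζ).comp (tq (pd.e * m) pd.q) = tq (pd.e * m) pd.q := by
      apply Polynomial.ringHom_ext
      · intro a
        simp [tq]
      · rw [RingHom.comp_apply, tq, coe_eval₂RingHom,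
          eval₂_X, map_pow, map_mul, PowerSeries.rescale_X]
        have h1 : PowerSeries.rescale ζ (PowerSeries.C ((pd.q : ℕ) : ℂ)) =
            PowerSeries.C ((pd.q : ℕ) : ℂ) := by
          rw [map_natCast, map_natCast]
        rw [h1, mul_pow, mul_pow, mul_pow, ← map_pow PowerSeries.C ζ, hζ, map_one, one_mul]
    have h2 : ((fI D F).map (tq (pd.e * m) pd.q)).map (PowerSeries.rescale ζ) =
        (fI D F).map (tq (pd.e * m) pd.q) := by
      rw [Polynomial.map_map, hcomp]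
    rw [hs, Polynomial.map_prod] at h2
    have h3 := congrArg (Polynomial.eval (PowerSeries.rescale ζ (Z (j k0)))) h2
    rw [Polynomial.eval_prod, Polynomial.eval_prod] at h3
    have h4 : ∏ k, Polynomial.eval (PowerSeries.rescale ζ (Z (j k0)))
        ((X - C (Z (j k))).map (PowerSeries.rescale ζ)) = 0 := by
      apply Finset.prod_eq_zero (Finset.mem_univ k0)
      rw [Polynomial.map_sub, Polynomial.map_X, Polynomial.map_C, Polynomial.eval_sub,
        Polynomial.eval_X, Polynomial.eval_C, sub_self]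
    rw [h4] at h3
    obtain ⟨k, -, hk⟩ := Finset.prod_eq_zero_iff.1 h3.symm
    rw [Polynomial.eval_sub, Polynomial.eval_X, Polynomial.eval_C] at hk
    exact ⟨k, sub_eq_zero.1 hk⟩
  have hωl : ∀ l : ℕ, (ω ^ l) ^ (pd.e * m) = 1 := by
    intro l
    rw [← pow_mul, mul_comm, pow_mul, hprim.pow_eq_one, one_pow]
  choose kf hkf using fun l : Fin (pd.e * m) => hrot (ω ^ (l : ℕ)) (hωl l)
  -- the stabilizer of a branch is trivial
  have hstab : ∀ ζ : ℂ, ζ ^ (pd.e * m) = 1 → PowerSeries.rescale ζ (Z (j k0)) = Z (j k0) →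
      ζ = 1 := by
    intro ζ hζ h1
    obtain ⟨i, ξ, π, hξ, hπ, h2, h3⟩ := rot_zv (mu := mu) hm pd W hζ (j k0)
    rw [hZd] at h1
    rw [h1] at h3
    rw [hZd] at hZ
    have h4 := hZ h3
    have h5 : (j k0).1 = i := congrArg Prod.fst h4
    have h6 : (j k0).2 = (j k0).2 * π⁻¹ := congrArg Prod.snd h4
    have h7 : π = 1 := by
      have h8 : π⁻¹ = 1 := by
        have h9 : (j k0).2 * π⁻¹ = (j k0).2 * 1 := by rw [← h6, mul_one]
        exact mul_left_cancel h9
      exact inv_eq_one.1 h8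
    have h8 : ζ = ξ := by
      rw [h5, ← hω, mul_comm] at h2
      exact mul_left_cancel₀ (pow_ne_zero _ hω0) h2
    rw [h8]
    refine hmin ξ hξ fun u => ?_
    rw [hπ u, h7, Equiv.Perm.one_apply]
  have hinj : ∀ l l' : Fin (pd.e * m), (l : ℕ) ≤ l' → kf l = kf l' → l = l' := by
    intro l l' hll h
    have h1 : PowerSeries.rescale (ω ^ (l : ℕ)) (Z (j k0)) =
        PowerSeries.rescale (ω ^ (l : ℕ)) (PowerSeries.rescale (ω ^ ((l' : ℕ) - l)) (Z (j k0))) := by
      rw [PowerSeries.rescale_rescale, ← pow_add, Nat.sub_add_cancel hll, hkf l, hkf l', h]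
    have h2 := PowerSeries.rescale_injective (pow_ne_zero _ hω0) h1
    have h3 := hstab _ (hωl _) h2.symm
    by_contra hne
    have h4 : (l' : ℕ) - l ≠ 0 := by
      intro h5
      exact hne (Fin.ext (by omega))
    exact hprim.pow_ne_one_of_pos_of_lt h4 (by omega) h3
  have hinj' : Function.Injective kf := by
    intro l l' h
    rcases le_total (l : ℕ) l' with h1 | h1
    · exact hinj l l' h1 h
    · exact (hinj l' l h1 h.symm).symm
  have hcard := Fintype.card_le_of_injective kf hinj'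
  rwa [Fintype.card_fin, Fintype.card_fin] at hcard

end Pool.Agent.H98.TY
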