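import Pool.Agent.H98.TY.Defs
import Pool.Agent.H87.TX.ZMG
import Pool.Agent.H87.TW.LAU

/-! # [H98 TY ROV] The roots of `Y^m = x^m`, `1/x = (q T)^e`

`rou (e * m)` is a primitive `e m`-th root of unity (`rou_prim` in `Pool/Agent/H87/TX/ZMG.lean`), so `ζ = rou (e * m) ^ e` is a primitive `m`-th root of unity (`IsPrimitiveRoot.pow`), `rou (e m) ^ (i e) = ζ^i`. The elements `y i = (iL (C (ζ^i)) * s)⁻¹`, `s = sL e q ≠ 0` (`sL_ne`), `i : Fin m`, are the `m` different roots of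
`X^m - C ((s⁻¹)^m)` (`iL ∘ C` is an injective ring homomorphism), and `(s⁻¹)^m = (sL (e m) q)⁻¹ = phL (e m) q X` (`eval₂_X`; `((C q * X)^e)^m = (C q * X)^(e m)`, `map_pow`). Same as `rou_prod` in `Pool/Agent/H87/TX/ROU.lean` (there `e = 1`): `X_pow_sub_C_eq_prod` of Mathlib for the primitive root `(iL (C ζ))⁻¹` and `α = s⁻¹`. -/

namespace Pool.Agent.H98.TY

open Finset Polynomial Pool.Agent.H72.ES Pool.Agent.H87.SA2 Pool.Agent.H8.AW Pool.Agent.H52.AC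
  Pool.Agent.H97.NW Pool.Agent.H97.FB Pool.Agent.H87.TW Pool.Agent.H87.TX

theorem rou_prodV {e m q : ℕ} (he : 1 ≤ e) (hm : 1 ≤ m) (hq : 1 ≤ q) :
    ∏ i : Fin m, (X - C ((iL (PowerSeries.C ((rou (e * m) ^ (i : ℕ)) ^ e)) * sL e q)⁻¹)) =
      X ^ m - C (phL (e * m) q X) := by
  have hs : sL e q ≠ 0 := sL_ne hq
  have hem : e * m ≠ 0 := (Nat.mul_pos he hm).ne'
  have hζ : IsPrimitiveRoot (rou (e * m) ^ e) m :=
    (rou_prim (Nat.mul_pos he hm)).pow (Nat.mul_pos he hm) rfl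
  have hζ1 : IsPrimitiveRoot (iL (PowerSeries.C (rou (e * m) ^ e))) m := by
    refine hζ.map_of_injective (f := iL.comp PowerSeries.C) ?_
    exact iL_inj.comp PowerSeries.C_injective
  have hζ2 : IsPrimitiveRoot (iL (PowerSeries.C (rou (e * m) ^ e)))⁻¹ m := hζ1.inv
  have ha : ((sL e q)⁻¹) ^ m = phL (e * m) q X := by
    unfold phL
    rw [coe_eval₂RingHom, eval₂_X, inv_pow]
    congr 1
    unfold sL
    rw [← map_pow, ← pow_mul]
  rw [X_pow_sub_C_eq_prod hζ2 (by omega) ha, Finset.prod_range]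
  refine prod_congr rfl fun i _ => ?_
  rw [mul_inv, inv_pow, ← map_pow, ← map_pow, ← pow_mul, ← pow_mul, mul_comm (i : ℕ) e]

end Pool.Agent.H98.TY
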