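import Pool.Agent.H98.TY.Defs
import Pool.Agent.H87.TX.ZMG
import Pool.Agent.H87.TW.GRO

/-! # [H98 TY ZVG] The rotated twisted series: coefficients, growth, integrality, values

As `Pool/Agent/H87/TX/ZMG.lean`, `ZMV.lean` (there `e = 1`). `zv_coeff`: `PowerSeries.coeff_rescale`, `zt_coeff`, `(C q * X)^k = C (q^k) * X^k` (`mul_pow`, `← map_pow`), `PowerSeries.coeff_C_mul`, `coeff_X_pow`.
`zv_growth`: `‖rou (e m)‖ = 1` (`rou_prim`, `1 ≤ e m`; `IsPrimitiveRoot.norm'_eq_one`), `zt_growth` with `R ≤ ρ`, and for `k = e (m-1)`: `mu q^k ≤ mu ρ^k`. `zv_int`: `rou` is integral (`IsPrimitiveRoot.isIntegral`), `mu`, `q` are integers, sums and products.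
`zv_ev`: `evz T (rescale c w) = evz (c * T) w` (`anv_rescale` in `Pool/Agent/H97/FB/ANV.lean`), `‖rou^i * T‖ = ‖T‖`; `evz` is additive on convergent series (`evH`, `cvz`, `gr_of_le`, as in the proof of `zt_ev` in `Pool/Agent/H87/TW/GRO.lean`), and the value of `C mu * (C q * X)^k` at `T'` is `mu (q T')^k` (`evz_C`, `evz_X`, `map_pow`). -/

namespace Pool.Agent.H98.TY

open Finset Polynomial Pool.Agent.H72.ES Pool.Agent.H87.SA2 Pool.Agent.H8.AW Pool.Agent.H52.AC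
  Pool.Agent.H87.TW Pool.Agent.H87.TX

variable {n e m q mu : ℕ}

theorem zv_mono_coeff (e m q mu k : ℕ) : PowerSeries.coeff k (PowerSeries.C (mu : ℂ) *
      (PowerSeries.C (q : ℂ) * PowerSeries.X) ^ (e * (m - 1))) =
    if k = e * (m - 1) then (mu : ℂ) * (q : ℂ) ^ (e * (m - 1)) else 0 := by
  rw [PowerSeries.coeff_C_mul, mul_pow, ← map_pow, PowerSeries.coeff_C_mul,
    PowerSeries.coeff_X_pow]
  split_ifs
  · rw [mul_one]
  · rw [mul_zero, mul_zero]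

theorem zv_coeff (W : Fin n → ℂ) (x : Fin n → PowerSeries ℂ)
    (p : Fin m × Equiv.Perm (Fin n)) (k : ℕ) : PowerSeries.coeff k (ZV e m q mu W x p) =
      (rou (e * m) ^ (p.1 : ℕ)) ^ k * (∑ u, W (p.2 u) * PowerSeries.coeff k (x u) +
        if k = e * (m - 1) then (mu : ℂ) * (q : ℂ) ^ (e * (m - 1)) else 0) := by
  unfold ZV VV
  rw [PowerSeries.coeff_rescale, map_add, zt_coeff, zv_mono_coeff]

theorem zv_norm (he : 1 ≤ e) (hm : 1 ≤ m) : ‖rou (e * m)‖ = 1 := by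
  have h : 1 ≤ e * m := Nat.mul_pos he hm
  exact (rou_prim h).norm'_eq_one (by omega)

theorem zv_growth (he : 1 ≤ e) (hm : 1 ≤ m) (W : Fin n → ℂ) (x : Fin n → PowerSeries ℂ)
    {V R ρ : ℝ} (hV0 : 0 ≤ V) (hR0 : 0 ≤ R) (hRρ : R ≤ ρ) (hρ1 : 1 ≤ ρ) (hqρ : (q : ℝ) ≤ ρ)
    (hV : ∀ u, ‖W u‖ ≤ V) (hR : ∀ u k, ‖PowerSeries.coeff k (x u)‖ ≤ R ^ (k + 1))
    (p : Fin m × Equiv.Perm (Fin n)) (k : ℕ) :
    ‖PowerSeries.coeff k (ZV e m q mu W x p)‖ ≤ (n * V * R + mu) * ρ ^ k := by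
  have hρ0 : 0 ≤ ρ := by linarith
  rw [zv_coeff, norm_mul, norm_pow, norm_pow, zv_norm he hm, one_pow, one_pow, one_mul,
    ← zt_coeff, add_mul]
  refine (norm_add_le _ _).trans (add_le_add ?_ ?_)
  · refine (zt_growth W x hV0 hR0 hV hR p.2 k).trans ?_
    refine mul_le_mul_of_nonneg_left (pow_le_pow_left₀ hR0 hRρ k) ?_
    exact mul_nonneg (mul_nonneg (Nat.cast_nonneg _) hV0) hR0
  · split_ifs with hk
    · rw [norm_mul, norm_pow, Complex.norm_natCast, Complex.norm_natCast, ← hk]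
      exact mul_le_mul_of_nonneg_left (pow_le_pow_left₀ (Nat.cast_nonneg _) hqρ k)
        (Nat.cast_nonneg _)
    · rw [norm_zero]
      exact mul_nonneg (Nat.cast_nonneg _) (pow_nonneg hρ0 k)

theorem zv_int (he : 1 ≤ e) (hm : 1 ≤ m) (W : Fin n → ℂ) (x : Fin n → PowerSeries ℂ)
    (hW : ∀ u, IsIntegral ℤ (W u)) (hx : ∀ u k, IsIntegral ℤ (PowerSeries.coeff k (x u)))
    (p : Fin m × Equiv.Perm (Fin n)) (k : ℕ) :
    IsIntegral ℤ (PowerSeries.coeff k (ZV e m q mu W x p)) := by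
  have h : 1 ≤ e * m := Nat.mul_pos he hm
  have hr : IsIntegral ℤ (rou (e * m)) := (rou_prim h).isIntegral (by omega)
  rw [zv_coeff, ← zt_coeff]
  refine ((hr.pow _).pow _).mul ((zt_int W x hW hx p.2 k).add ?_)
  split_ifs
  · exact (isIntegral_natCast mu).mul ((isIntegral_natCast q).pow _)
  · exact isIntegral_zero

theorem zv_rescale (c T : ℂ) (x : PowerSeries ℂ) :
    evz T (PowerSeries.rescale c x) = evz (c * T) x := by
  unfold Pool.Agent.H52.AC.evz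
  refine tsum_congr fun k => ?_
  rw [PowerSeries.coeff_rescale, mul_pow]
  ring

theorem zv_mono_ev (e m q mu : ℕ) (T : ℂ) : evz T (PowerSeries.C (mu : ℂ) *
      (PowerSeries.C (q : ℂ) * PowerSeries.X) ^ (e * (m - 1))) =
    (mu : ℂ) * ((q : ℂ) * T) ^ (e * (m - 1)) := by
  let ev := evH ‖T‖ (norm_nonneg _) T le_rfl
  let X' : cvz ‖T‖ (norm_nonneg _) := ⟨PowerSeries.X, gr_X _⟩
  let q' : cvz ‖T‖ (norm_nonneg _) := ⟨PowerSeries.C (q : ℂ), gr_C _ _⟩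
  let mu' : cvz ‖T‖ (norm_nonneg _) := ⟨PowerSeries.C (mu : ℂ), gr_C _ _⟩
  have eX : ev X' = T := by
    show evz T PowerSeries.X = _
    exact evz_X _
  have eq' : ev q' = (q : ℂ) := by
    show evz T (PowerSeries.C _) = _
    exact evz_C _ _
  have em' : ev mu' = (mu : ℂ) := by
    show evz T (PowerSeries.C _) = _
    exact evz_C _ _
  have h : ev (mu' * (q' * X') ^ (e * (m - 1))) = (mu : ℂ) * ((q : ℂ) * T) ^ (e * (m - 1)) := by
    rw [map_mul, map_pow, map_mul, eX, eq', em']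
  exact h

theorem zv_gr_mono (e m q mu : ℕ) (r : ℝ) (hr : 0 ≤ r) : Gr r (PowerSeries.C (mu : ℂ) *
      (PowerSeries.C (q : ℂ) * PowerSeries.X) ^ (e * (m - 1))) := by
  let X' : cvz r hr := ⟨PowerSeries.X, gr_X _⟩
  let q' : cvz r hr := ⟨PowerSeries.C (q : ℂ), gr_C _ _⟩
  let mu' : cvz r hr := ⟨PowerSeries.C (mu : ℂ), gr_C _ _⟩
  exact (mu' * (q' * X') ^ (e * (m - 1))).2

theorem zv_ev (he : 1 ≤ e) (hm : 1 ≤ m) (W : Fin n → ℂ) (x : Fin n → PowerSeries ℂ) {R : ℝ}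
    (hR0 : 0 ≤ R) (hR : ∀ u k, ‖PowerSeries.coeff k (x u)‖ ≤ R ^ (k + 1))
    (p : Fin m × Equiv.Perm (Fin n)) {T : ℂ} (hT : R * ‖T‖ < 1) :
    evz T (ZV e m q mu W x p) =
      ∑ u, W (p.2 u) * evz (rou (e * m) ^ (p.1 : ℕ) * T) (x u) +
        (mu : ℂ) * ((q : ℂ) * (rou (e * m) ^ (p.1 : ℕ) * T)) ^ (e * (m - 1)) := by
  obtain ⟨S, hS⟩ : ∃ S : ℂ, S = rou (e * m) ^ (p.1 : ℕ) * T := ⟨_, rfl⟩
  have hSn : ‖S‖ = ‖T‖ := by
    rw [hS, norm_mul, norm_pow, zv_norm he hm, one_pow, one_mul]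
  have hT' : R * ‖S‖ < 1 := by rw [hSn]; exact hT
  unfold ZV VV
  rw [zv_rescale, ← hS]
  have hG : Gr ‖S‖ (Zt W x p.2) := by
    have hV0 : ∃ V : ℝ, 0 ≤ V ∧ ∀ u, ‖W u‖ ≤ V :=
      ⟨∑ u, ‖W u‖, sum_nonneg fun u _ => norm_nonneg _, fun u =>
        single_le_sum (f := fun u => ‖W u‖) (fun u _ => norm_nonneg _) (mem_univ u)⟩
    obtain ⟨V, hV0, hV⟩ := hV0
    exact gr_of_le hR0 (norm_nonneg _) hT' (zt_growth W x hV0 hR0 hV hR p.2)
  rw [evz_add le_rfl hG (zv_gr_mono e m q mu _ (norm_nonneg _)), zt_ev W x hR0 hR p.2 hT',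
    zv_mono_ev]

end Pool.Agent.H98.TY
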