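import Pool.Agent.H98.TY.Defs
import Pool.Agent.H87.TW.LAU
import Pool.Agent.H97.FB.ANR

/-! # [H98 TY FSV] The family over the Laurent series, any ramification

As `fam_splitM` in `Pool/Agent/H87/TX/FSM.lean` (there `pd.e = 1`) and `fam_split` in `Pool/Agent/H87/TW/LAU.lean` (there `m = 1`): `s = sL e q`, `s^m = sL (e m) q` (`map_pow`, `pow_mul`). For `i ≤ n`:
`(sL (e m) q)^(n-i) * phL e q (f.coeff i) = s^(m (n-i)) ∑_j f_ij s^(-j) = iL (tq e q (reflect (m (n-i)) (f.coeff i)))` (degree `≤ m (n-i)`),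
`rv n m f = ∑_(i ≤ n) C (reflect (m (n-i)) (f.coeff i)) X^i` (`rv_coeff` in `Pool/Agent/H97/FB/ANR.lean`), `pd.split`, and `coeff_scale` with `a = (sL (e m) q)⁻¹`. -/

namespace Pool.Agent.H98.TY

open Finset Polynomial Pool.Agent.H72.ES Pool.Agent.H87.SA2 Pool.Agent.H8.AW Pool.Agent.H52.AC
  Pool.Agent.H97.NW Pool.Agent.H97.FB Pool.Agent.H87.TW

theorem fam_splitV {n m : ℕ} {f : ℤ[X][X]} (hm : f.Monic) (hd : f.natDegree = n)
    (hc : ∀ i, (f.coeff i).natDegree ≤ m * (n - i)) (pd : PData (rv n m f) n) :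
    f.map (phL pd.e pd.q) = ∏ u, (X - C ((sL (pd.e * m) pd.q)⁻¹ * iL (pd.x u))) := by
  have hq := pd.q_pos
  have hs0 : sL pd.e pd.q ≠ 0 := sL_ne hq
  have hpow : sL (pd.e * m) pd.q = sL pd.e pd.q ^ m := by
    unfold sL
    rw [pow_mul, map_pow]
  have hS0 : sL (pd.e * m) pd.q ≠ 0 := by
    rw [hpow]
    exact pow_ne_zero _ hs0
  have hiL : ∀ r : ℤ[X], iL (tq pd.e pd.q r) =
      eval₂ (Int.castRingHom (LaurentSeries ℂ)) (sL pd.e pd.q) r := by
    intro r
    unfold tq sL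
    rw [coe_eval₂RingHom, hom_eval₂]
    congr 1
    exact RingHom.ext_int _ _
  have hrefl : ∀ (N : ℕ) (p : ℤ[X]), p.natDegree ≤ N →
      iL (tq pd.e pd.q (reflect N p)) = sL pd.e pd.q ^ N * phL pd.e pd.q p := by
    intro N p hp
    rw [hiL]
    letI : Invertible (sL pd.e pd.q)⁻¹ := invertibleOfNonzero (inv_ne_zero hs0)
    have h1 := eval₂_reflect_mul_pow (Int.castRingHom (LaurentSeries ℂ)) (sL pd.e pd.q)⁻¹ N p hp
    have h2 : ⅟ (sL pd.e pd.q)⁻¹ = sL pd.e pd.q := by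
      rw [invOf_eq_inv, inv_inv]
    rw [h2] at h1
    have h3 : phL pd.e pd.q p =
        eval₂ (Int.castRingHom (LaurentSeries ℂ)) (sL pd.e pd.q)⁻¹ p := rfl
    rw [h3, ← h1, inv_pow, mul_comm, mul_assoc, inv_mul_cancel₀ (pow_ne_zero _ hs0), mul_one]
  have hsplit : (∏ u, (X - C (iL (pd.x u))) : (LaurentSeries ℂ)[X]) =
      ((rv n m f).map (tq pd.e pd.q)).map iL := by
    rw [pd.split, Polynomial.map_prod]
    simp only [Polynomial.map_sub, map_X, map_C]
  ext1 i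
  by_cases hi : i ≤ n
  · rw [coeff_scale (D := n) (sL (pd.e * m) pd.q)⁻¹ (fun u => iL (pd.x u)) i hi, hsplit, coeff_map,
      coeff_map, coeff_map, rv_coeff hi, hrefl _ _ (hc i), hpow, inv_pow, ← pow_mul, ← mul_assoc,
      inv_mul_cancel₀ (pow_ne_zero _ hs0), one_mul]
  · rw [not_le] at hi
    rw [coeff_map, coeff_eq_zero_of_natDegree_lt (by omega), map_zero]
    symm
    apply coeff_eq_zero_of_natDegree_lt
    rw [natDegree_prod_of_monic _ _ (fun u _ => monic_X_sub_C _)]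
    simp only [natDegree_X_sub_C, Finset.sum_const, Finset.card_univ, Fintype.card_fin, smul_eq_mul,
      mul_one]
    exact hi

end Pool.Agent.H98.TY
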