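import Pool.Agent.H87.TX.CRX

/-! # [H98 TY CRV] The twisted curve as a `CrvB`, `e m` instead of `m`, constant uniform for `e ≤ E`

`exists_crvX N (e * m)` (`Pool/Agent/H87/TX/CRX.lean`) for each `e` with `1 ≤ e ≤ E` gives `K_e`; `K = 1 + ∑_(e ≤ E) K_e` (choose a function; for `e = 0` any value; `Finset.single_le_sum`). A `CrvB ν D b F` is a `CrvB ν D b' F` with the same `pd` for `b ≤ b'` (all bounds `≤ b`, `b = A^(K_e) ≤ A^K = b'`). -/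

namespace Pool.Agent.H98.TY

open Finset Polynomial Pool.Agent.H87.SA2 Pool.Agent.H8.AW Pool.Agent.H52.AC Pool.Agent.H97.NW

theorem exists_crvV (N m E : ℕ) (hm : 1 ≤ m) : ∃ K : ℕ, 1 ≤ K ∧ ∀ (e ν D A q : ℕ)
    (F : ℕ → ℕ → ℤ) (Z : Fin D → PowerSeries ℂ), 1 ≤ e → e ≤ E → D ≤ N → D ≤ ν → e * m ≤ D →
    2 ≤ A → 1 ≤ q → q ≤ A → F 0 D = 1 → (∀ i j, D < i + j → F i j = 0) →
    Irreducible (FQ D F) → Function.Injective Z →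
    (∀ i k, IsIntegral ℤ (PowerSeries.coeff k (Z i))) →
    (∀ i k, ‖PowerSeries.coeff k (Z i)‖ ≤ (A : ℝ) * (A : ℝ) ^ k) →
    (fI D F).map (tq (e * m) q) = ∏ i, (X - C (Z i)) →
    ∃ Cv : CrvB ν D (A ^ K) F, Cv.pd.e = e * m ∧ Cv.pd.q = q ∧ Cv.pd.x = Z := by
  classical
  have h1 : ∀ e : ℕ, ∃ K : ℕ, 1 ≤ K ∧ (1 ≤ e → ∀ (ν D A q : ℕ) (F : ℕ → ℕ → ℤ)
      (Z : Fin D → PowerSeries ℂ), D ≤ N → D ≤ ν → e * m ≤ D → 2 ≤ A → 1 ≤ q → q ≤ A → F 0 D = 1 →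
      (∀ i j, D < i + j → F i j = 0) → Irreducible (FQ D F) → Function.Injective Z →
      (∀ i k, IsIntegral ℤ (PowerSeries.coeff k (Z i))) →
      (∀ i k, ‖PowerSeries.coeff k (Z i)‖ ≤ (A : ℝ) * (A : ℝ) ^ k) →
      (fI D F).map (tq (e * m) q) = ∏ i, (X - C (Z i)) →
      ∃ Cv : CrvB ν D (A ^ K) F, Cv.pd.e = e * m ∧ Cv.pd.q = q ∧ Cv.pd.x = Z) := by
    intro e
    rcases Nat.eq_zero_or_pos e with h | h
    · exact ⟨1, le_rfl, fun h' => absurd h' (by omega)⟩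
    · obtain ⟨K, hK1, hK⟩ := Pool.Agent.H87.TX.exists_crvX N (e * m) (Nat.mul_pos h hm)
      exact ⟨K, hK1, fun _ => hK⟩
  choose Kf hK1 hK using h1
  refine ⟨1 + ∑ e ∈ range (E + 1), Kf e, by omega, ?_⟩
  intro e ν D A q F Z he heE hDN hDν hm' hA hq hqA hF0 hFz hirr hinj hint hgr hs
  obtain ⟨Cv, h1, h2, h3⟩ :=
    hK e he ν D A q F Z hDN hDν hm' hA hq hqA hF0 hFz hirr hinj hint hgr hs
  have hle : A ^ Kf e ≤ A ^ (1 + ∑ e ∈ range (E + 1), Kf e) := by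
    refine Nat.pow_le_pow_right (by omega) ?_
    have h4 := Finset.single_le_sum (f := Kf) (fun i _ => Nat.zero_le _)
      (Finset.mem_range.2 (by omega : e < E + 1))
    omega
  have hleZ : ((A ^ Kf e : ℕ) : ℤ) ≤ ((A ^ (1 + ∑ e ∈ range (E + 1), Kf e) : ℕ) : ℤ) := by
    exact_mod_cast hle
  have hR : Cv.pd.R ≤ ((A ^ (1 + ∑ e ∈ range (E + 1), Kf e) : ℕ) : ℝ) :=
    Cv.R_le.trans (by exact_mod_cast hle)
  have hbez : ∃ (u v : ℤ[X][X]) (c : ℤ[X]), c ≠ 0 ∧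
      u * fI D F + v * derivative (fI D F) = C c ∧ c.natDegree ≤ 2 * D * D ∧
      ∀ i, |c.coeff i| ≤ ((A ^ (1 + ∑ e ∈ range (E + 1), Kf e) : ℕ) : ℤ) := by
    obtain ⟨u, v, c, hc, h4, h5, h6⟩ := Cv.bez
    exact ⟨u, v, c, hc, h4, h5, fun i => (h6 i).trans hleZ⟩
  exact ⟨⟨Cv.d1, Cv.dn, Cv.b2.trans hle, Cv.lead, fun i j => (Cv.le i j).trans hleZ, Cv.irr, Cv.pd,
    Cv.e_le, Cv.q_le.trans hle, hR, hbez⟩, h1, h2, h3⟩

end Pool.Agent.H98.TY
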