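import Pool.Agent.H98.TY.ZVG
import Pool.Agent.H87.TX.LMX
import Pool.Agent.H87.TW.LAM

/-! # [H98 TY MUV] The choice of the weight and of `mu`

`ω = rou (e m)`, primitive (`rou_prim`). `exists_lam n` (`Pool/Agent/H87/TW/LAM.lean`) with `θ` and `gam = θ`: `lam ≤ Λ0`, `τ ↦ ∑_u wv n lam (θ (τ u)) * θ u` injective. `W u = wv n lam (θ u)`.
`exists_mu` (`Pool/Agent/H87/TX/LMX.lean`) with `ι = {pp : (Fin m × Perm) × (Fin m × Perm) // pp.1.1 ≠ pp.2.1}` (card `≤ (m n!)^2`), `S p = ∑_u W (p.2 u) * evz (ω^(p.1) * T) (x u)`, `α = S pp.1 - S pp.2`, `β = (q * (ω^(pp.1.1) * T))^(e (m-1)) - (q * (ω^(pp.2.1) * T))^(e (m-1))`.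
`β ≠ 0`: it is `(q T)^(e (m-1)) (ζ^(i (m-1)) - ζ^(i' (m-1)))`, `ζ = ω^e` a primitive `m`-th root of unity, `q, T ≠ 0`; if `ζ^(i (m-1)) = ζ^(i' (m-1))` multiply by `ζ^(i + i')` and use `ζ^m = 1`: `ζ^(i') = ζ^i`, so `i = i'` (`IsPrimitiveRoot.pow_inj`). By `zv_ev` (`R = pd.R`, `pd.growth`): for `p.1 ≠ p'.1` the values `evz T (ZV p) ≠ evz T (ZV p')`.
INJECTIVE: `ZV p = ZV p'` implies `p.1 = p'.1`; `evz T (ZV (0, τ)) = ∑_u W (τ u) evz T (x u) + mu (q T)^(e (m-1))` (`ω^0 = 1`), `rescale (ω^i)` is injective (`ω ≠ 0`), `ZV (0, τ) = VV τ`, so `VV p.2 = VV p'.2` gives `∑_u W (p.2 u) * evz T (x u) = ∑_u W (p'.2 u) * evz T (x u)`; multiply by `a^m` (`hθ`): `p.2 = p'.2`.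
SECOND: `p ≠ (0, 1)`: if `p.1 ≠ 0` by the choice of `mu`; if `p.1 = 0` then `p.2 ≠ 1` and the values differ by the injectivity of `τ ↦ ∑_u W (τ u) θ u`. `Λ = Λ0 + (m n!)^2`. -/

namespace Pool.Agent.H98.TY

open Finset Polynomial Pool.Agent.H72.ES Pool.Agent.H87.SA2 Pool.Agent.H8.AW Pool.Agent.H52.AC
  Pool.Agent.H97.GA Pool.Agent.H87.TW Pool.Agent.H87.TX

theorem exists_lmu (n m : ℕ) (hm : 1 ≤ m) : ∃ Λ : ℕ, ∀ (g : ℤ[X][X]) (pd : PData g n)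
    (θ : Fin n → ℂ) (a : ℕ) (T : ℂ), T ≠ 0 → pd.R * ‖T‖ < 1 → Function.Injective θ →
    (∀ u, θ u = (a : ℂ) ^ m * evz T (pd.x u)) → ∃ lam ≤ Λ, ∃ mu ≤ Λ,
      Function.Injective (ZV pd.e m pd.q mu (fun u => wv n lam (θ u)) pd.x) ∧
      ∀ p : Fin m × Equiv.Perm (Fin n), p ≠ (⟨0, hm⟩, 1) →
        evz T (ZV pd.e m pd.q mu (fun u => wv n lam (θ u)) pd.x p) ≠
        evz T (ZV pd.e m pd.q mu (fun u => wv n lam (θ u)) pd.x (⟨0, hm⟩, 1)) := by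
  classical
  obtain ⟨Λ0, hΛ0⟩ := Pool.Agent.H87.TW.exists_lam n
  obtain ⟨N, hN⟩ : ∃ N, N = Fintype.card {pp : (Fin m × Equiv.Perm (Fin n)) ×
      (Fin m × Equiv.Perm (Fin n)) // pp.1.1 ≠ pp.2.1} := ⟨_, rfl⟩
  refine ⟨Λ0 + N, ?_⟩
  intro g pd θ a T hT hRT hθinj hθ
  obtain ⟨lam, hlam, hinj, -⟩ := hΛ0 θ θ hθinj hθinj
  obtain ⟨W, hW⟩ : ∃ W : Fin n → ℂ, W = fun u => wv n lam (θ u) := ⟨_, rfl⟩
  have he1 : 1 ≤ pd.e := pd.e_pos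
  have hq1 : 1 ≤ pd.q := pd.q_pos
  have hem1 : 1 ≤ pd.e * m := Nat.mul_pos he1 hm
  obtain ⟨e, hed⟩ : ∃ e, e = pd.e := ⟨_, rfl⟩
  obtain ⟨q, hqd⟩ : ∃ q, q = pd.q := ⟨_, rfl⟩
  rw [← hed] at he1 hem1
  rw [← hqd] at hq1
  obtain ⟨ω, hω⟩ : ∃ ω, ω = rou (e * m) := ⟨_, rfl⟩
  have hprim : IsPrimitiveRoot ω (e * m) := by
    rw [hω]
    exact rou_prim hem1
  have hω0 : ω ≠ 0 := hprim.ne_zero (by omega)
  have hprime : IsPrimitiveRoot (ω ^ e) m := hprim.pow (by omega) rfl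
  have hqT : (q : ℂ) * T ≠ 0 := by
    refine mul_ne_zero ?_ hT
    have : q ≠ 0 := by omega
    exact_mod_cast this
  -- the rotations give different values of the extra term
  have hβ0 : ∀ i i' : Fin m, i ≠ i' →
      ((q : ℂ) * (ω ^ (i : ℕ) * T)) ^ (e * (m - 1)) -
        ((q : ℂ) * (ω ^ (i' : ℕ) * T)) ^ (e * (m - 1)) ≠ 0 := by
    intro i i' hii h
    have h1 : ∀ i : Fin m, ((q : ℂ) * (ω ^ (i : ℕ) * T)) ^ (e * (m - 1)) =
        ((q : ℂ) * T) ^ (e * (m - 1)) * (ω ^ e) ^ ((i : ℕ) * (m - 1)) := by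
      intro i
      rw [show (q : ℂ) * (ω ^ (i : ℕ) * T) = (q : ℂ) * T * ω ^ (i : ℕ) by ring, mul_pow]
      congr 1
      rw [← pow_mul, ← pow_mul]
      congr 1
      ring
    rw [h1, h1, ← mul_sub] at h
    have h2 := (mul_eq_zero.1 h).resolve_left (pow_ne_zero _ hqT)
    have h3 : (ω ^ e) ^ ((i : ℕ) * (m - 1)) = (ω ^ e) ^ ((i' : ℕ) * (m - 1)) := sub_eq_zero.1 h2
    have hm1 : (ω ^ e) ^ m = 1 := hprime.pow_eq_one
    have h4 : ∀ i i' : ℕ, (ω ^ e) ^ (i * (m - 1)) * (ω ^ e) ^ (i + i') = (ω ^ e) ^ i' := by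
      intro i i'
      rw [← pow_add, show i * (m - 1) + (i + i') = m * i + i' by
        obtain ⟨k, rfl⟩ : ∃ k, m = k + 1 := ⟨m - 1, by omega⟩
        rw [Nat.add_sub_cancel]
        ring, pow_add, pow_mul, hm1, one_pow, one_mul]
    have h5 : (ω ^ e) ^ (i' : ℕ) = (ω ^ e) ^ (i : ℕ) := by
      rw [← h4 i i', h3, add_comm (i : ℕ) (i' : ℕ), h4]
    exact hii (Fin.ext (hprime.pow_inj i.2 i'.2 h5.symm))
  obtain ⟨Sf, hSf⟩ : ∃ Sf : Fin m × Equiv.Perm (Fin n) → ℂ, Sf = fun p =>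
    ∑ u, W (p.2 u) * evz (ω ^ (p.1 : ℕ) * T) (pd.x u) := ⟨_, rfl⟩
  obtain ⟨mu, hmu, hmun⟩ := exists_mu
    (ι := {pp : (Fin m × Equiv.Perm (Fin n)) × (Fin m × Equiv.Perm (Fin n)) // pp.1.1 ≠ pp.2.1})
    (fun pp => Sf pp.1.1 - Sf pp.1.2)
    (fun pp => ((q : ℂ) * (ω ^ (pp.1.1.1 : ℕ) * T)) ^ (e * (m - 1)) -
        ((q : ℂ) * (ω ^ (pp.1.2.1 : ℕ) * T)) ^ (e * (m - 1)))
    (fun pp => hβ0 _ _ pp.2)
  rw [← hN] at hmu
  have hR0 : 0 ≤ pd.R := by linarith [pd.R_ge]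
  have hval : ∀ p, evz T (ZV e m q mu W pd.x p) =
      Sf p + (mu : ℂ) * ((q : ℂ) * (ω ^ (p.1 : ℕ) * T)) ^ (e * (m - 1)) := by
    intro p
    rw [zv_ev he1 hm W pd.x hR0 pd.growth p hRT, hSf, hω]
  have hne : ∀ p p' : Fin m × Equiv.Perm (Fin n), p.1 ≠ p'.1 →
      evz T (ZV e m q mu W pd.x p) ≠ evz T (ZV e m q mu W pd.x p') := by
    intro p p' hpp h
    rw [hval, hval] at h
    apply hmun ⟨(p, p'), hpp⟩
    show Sf p - Sf p' + (mu : ℂ) * (((q : ℂ) * (ω ^ (p.1 : ℕ) * T)) ^ (e * (m - 1)) -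
        ((q : ℂ) * (ω ^ (p'.1 : ℕ) * T)) ^ (e * (m - 1))) = 0
    linear_combination h
  -- equal values of the unrotated series
  have hS0 : ∀ τ τ' : Equiv.Perm (Fin n), Sf (⟨0, hm⟩, τ) = Sf (⟨0, hm⟩, τ') → τ = τ' := by
    intro τ τ' h
    apply hinj
    show ∑ u, wv n lam (θ (τ u)) * θ u = ∑ u, wv n lam (θ (τ' u)) * θ u
    have h1 : ∀ τ : Equiv.Perm (Fin n), ∑ u, wv n lam (θ (τ u)) * θ u =
        (a : ℂ) ^ m * Sf (⟨0, hm⟩, τ) := by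
      intro τ
      rw [hSf]
      show _ = (a : ℂ) ^ m * ∑ u, W (τ u) * evz (ω ^ (((⟨0, hm⟩ : Fin m) : ℕ)) * T) (pd.x u)
      rw [mul_sum]
      refine sum_congr rfl fun u _ => ?_
      have h2 : ω ^ (((⟨0, hm⟩ : Fin m) : ℕ)) * T = T := by
        show ω ^ 0 * T = T
        rw [pow_zero, one_mul]
      rw [h2, hW, hθ u]
      ring
    rw [h1, h1, h]
  refine ⟨lam, by omega, mu, by omega, ?_⟩
  rw [← hW, ← hed, ← hqd]
  refine ⟨?_, ?_⟩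
  · intro p p' h
    have h1 : p.1 = p'.1 := by
      by_contra hc
      exact hne p p' hc (by rw [h])
    have h2 : VV e m q mu W pd.x p.2 = VV e m q mu W pd.x p'.2 := by
      have h3 : PowerSeries.rescale (rou (e * m) ^ (p.1 : ℕ)) (VV e m q mu W pd.x p.2) =
          PowerSeries.rescale (rou (e * m) ^ (p'.1 : ℕ)) (VV e m q mu W pd.x p'.2) := h
      rw [← h1, ← hω] at h3
      ext k
      have h4 := congrArg (PowerSeries.coeff k) h3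
      rw [PowerSeries.coeff_rescale, PowerSeries.coeff_rescale] at h4
      exact mul_left_cancel₀ (pow_ne_zero k (pow_ne_zero _ hω0)) h4
    have h5 : ZV e m q mu W pd.x (⟨0, hm⟩, p.2) = ZV e m q mu W pd.x (⟨0, hm⟩, p'.2) := by
      unfold ZV
      show PowerSeries.rescale _ (VV e m q mu W pd.x p.2) =
        PowerSeries.rescale _ (VV e m q mu W pd.x p'.2)
      rw [h2]
    have h6 : evz T (ZV e m q mu W pd.x (⟨0, hm⟩, p.2)) =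
        evz T (ZV e m q mu W pd.x (⟨0, hm⟩, p'.2)) := by rw [h5]
    rw [hval, hval] at h6
    exact Prod.ext h1 (hS0 _ _ (add_right_cancel h6))
  · intro p hp h
    by_cases h1 : p.1 = ⟨0, hm⟩
    · obtain ⟨i, τ⟩ := p
      simp only at h1
      subst h1
      rw [hval, hval] at h
      have h2 := hS0 _ _ (add_right_cancel h)
      apply hp
      rw [h2]
    · exact hne p _ h1 h

end Pool.Agent.H98.TY
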