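import Pool.Agent.H98.TY.TYF
import Pool.Agent.H98.TY.RED

/-! # [H98 TY TYG] The twisted curve of a fibre of an arbitrary family -/

namespace Pool.Agent.H98.TY

open Finset Polynomial Pool.Agent.H72.ES Pool.Agent.H87.SA2 Pool.Agent.H8.AW Pool.Agent.H52.AC
  Pool.Agent.H97.NW Pool.Agent.H97.FB Pool.Agent.H97.FC Pool.Agent.H97.GA Pool.Agent.H37.TU
  Pool.Agent.H97.TU Pool.Agent.H97.TV Pool.Agent.H98.MR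

/-- with equidistribution of the permutations -/
theorem exists_tyE (n m : ℕ) (hn : 2 ≤ n) (hm : 1 ≤ m) : ∃ κ : ℕ, 1 ≤ κ ∧ ∀ c : ℕ, ∃ C : ℕ,
    ∀ (B : ℕ) (f : ℤ[X][X]) (Fm : FamB n m B f) (a : ℕ), B ^ C ≤ a → ∀ ν : ℕ,
    m * n.factorial ≤ ν → ∃ P : Ptd ν, P.x = ((a ^ m : ℕ) : ℤ) ∧ Rlx κ c P ∧
      TauE (thA Fm.pd m a) Fm.pd P := by
  obtain ⟨C1, hC1, h1⟩ := exists_red n m
  obtain ⟨κ, hκ, h2⟩ := exists_ty n m hn hm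
  refine ⟨κ, hκ, fun c => ?_⟩
  obtain ⟨C2, h3⟩ := h2 c
  refine ⟨C1 * C2 + C1, fun B f Fm a ha ν hν => ?_⟩
  obtain ⟨Fm', hmin, hth, hpr⟩ := h1 B f Fm
  have hB1 : 0 < B := by
    have := Fm.B2
    omega
  have hle : ∀ k, k ≤ C1 * C2 + C1 → B ^ k ≤ a :=
    fun k hk => (Nat.pow_le_pow_right hB1 hk).trans ha
  obtain ⟨P, hx, hr, tau, ht1, ht2, ht3, ht4⟩ := h3 (B ^ C1) f Fm' hmin a
    (by rw [← pow_mul]; exact hle _ (by omega)) ν hν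
  have hth' : thA Fm'.pd m a = thA Fm.pd m a := funext (hth a (hle C1 (by omega)))
  refine ⟨P, hx, hr, tau, ht1, ?_, ?_, ht4⟩
  · intro σ ν' hν' i j hk
    rw [← hth'] at hν'
    obtain ⟨π, hπ, h4⟩ := ht2 σ ν' hν' i j hk
    exact ⟨π, hpr σ π hπ, h4⟩
  · intro ζ hζ i j hr'
    obtain ⟨π, hπ, h4⟩ := ht3 ζ hζ i j hr'
    exact ⟨π, hpr idA π hπ, h4⟩

theorem exists_tyV (n m : ℕ) (hn : 2 ≤ n) (hm : 1 ≤ m) : ∃ κ : ℕ, 1 ≤ κ ∧ ∀ c : ℕ, ∃ C : ℕ,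
    ∀ (B : ℕ) (f : ℤ[X][X]) (Fm : FamB n m B f) (a : ℕ), B ^ C ≤ a → ∀ ν : ℕ,
    m * n.factorial ≤ ν → ∃ P : Ptd ν, P.x = ((a ^ m : ℕ) : ℤ) ∧ Rlx κ c P ∧
      TauG (thA Fm.pd m a) Fm.pd P := by
  obtain ⟨κ, hκ, h1⟩ := exists_tyE n m hn hm
  refine ⟨κ, hκ, fun c => ?_⟩
  obtain ⟨C, h2⟩ := h1 c
  refine ⟨C, fun B f Fm a ha ν hν => ?_⟩
  obtain ⟨P, hx, hr, ht⟩ := h2 B f Fm a ha ν hν
  exact ⟨P, hx, hr, ht.tauG⟩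

end Pool.Agent.H98.TY
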