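import Pool.Agent.H98.TY.FSV
import Pool.Agent.H98.TY.ROV
import Pool.Agent.H98.TY.MDV
import Pool.Agent.H98.TY.ZVG
import Pool.Agent.H87.TX.RSC
import Pool.Agent.H87.TX.NRM
import Pool.Agent.H87.TW.PRD
import Pool.Agent.H87.TW.FAC
import Pool.Agent.H87.TW.IRA
import Pool.Agent.H87.TW.SYN

/-! # [H98 TY ALV] The twisted curve over `x^m`, any ramification: the algebra (assembly)

Model: `Pool/Agent/H87/TW/ALG.lean` (and `Pool/Agent/H87/TX/ALX.lean`, there `e = 1`). `e = Fm.pd.e`, `q = Fm.pd.q`, `s = sL e q`, `sL (e m) q = s^m`, `w_u = wv n lam (θ u)`, `ω = rou (e m)`. `prod_perm` (`φ = phL e q` injective: `phL_inj`; `p = f`, `fam_splitV`; weights `iL (C w_u)`, `w_poly`) gives `Φ0` with roots `(sL (e m) q)⁻¹ * iL (Zt w x τ)`.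
`Φ = Φ0.comp (X - C (C mu * X))` (roots plus `mu x`, `phL e q X = s⁻¹`): monic, and `mu s⁻¹ = (sL (e m) q)⁻¹ * iL (C mu * (C q * X)^(e (m-1)))` (`1 ≤ m`), so `Φ.map (phL e q) = ∏_τ (X - C ((sL (e m) q)⁻¹ * iL (VV τ)))`.
`norm_pow` with `φ = phL (e m) q` (`1 ≤ e m`), `y i = (iL (C ((ω^i)^e)) * s)⁻¹` (`rou_prodV`) gives `Ψ`. With `R` from `exists_resc (ω^i)`: `R s = iL ((C q * (C (ω^i) * X))^e) = iL (C ((ω^i)^e)) * s`, so `eval₂RingHom (Int.castRingHom _) (y i) = R.comp (phL e q)` (`Polynomial.ringHom_ext'`; `phL e q X = s⁻¹`, `map_inv₀`),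
`Φ.map (eval₂RingHom _ (y i)) = (Φ.map (phL e q)).map R = ∏_τ (X - C ((sL (e m) q)⁻¹ * iL (rescale (ω^i) (VV τ))))` since `R (sL (e m) q) = sL (e m) q` (`(ω^i)^(e m) = 1`, `rou_prim`). So `Ψ.map (phL (e m) q) = ∏_(i, τ) (X - C ((sL (e m) q)⁻¹ * iL (ZV (i, τ))))` (`Fintype.prod_prod_type`). The roots are different (`iL_inj`, `hZ`).
`exists_fac` (`ι = Fin m × Equiv.Perm (Fin n)`, `i0 = (0, 1)`). `D ≤ card ι = m * n!`. `deg_bound`, `arr_split`, `arr_irr` with `e m`. `e m ≤ D`: `em_le_D`. -/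

namespace Pool.Agent.H98.TY

open Finset Polynomial Pool.Agent.H72.ES Pool.Agent.H87.SA2 Pool.Agent.H8.AW Pool.Agent.H52.AC
  Pool.Agent.H97.NW Pool.Agent.H97.FB Pool.Agent.H97.GA Pool.Agent.H87.TW Pool.Agent.H87.TX

/-- the shift by `mu x` -/
private lemma alv_shift {e m q mu : ℕ} (hm : 1 ≤ m) (hq : 1 ≤ q) :
    (mu : LaurentSeries ℂ) * (sL e q)⁻¹ =
      (sL (e * m) q)⁻¹ * iL (PowerSeries.C (mu : ℂ) *
        (PowerSeries.C (q : ℂ) * PowerSeries.X) ^ (e * (m - 1))) := by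
  have h1 : sL (e * m) q =
      iL ((PowerSeries.C (q : ℂ) * PowerSeries.X) ^ (e * (m - 1))) * sL e q := by
    unfold sL
    rw [← map_mul, ← pow_add, ← Nat.mul_succ, Nat.succ_eq_add_one, Nat.sub_add_cancel hm]
  have h2 : sL e q ≠ 0 := sL_ne hq
  have h3 : sL (e * m) q ≠ 0 := sL_ne hq
  have h4 : iL (PowerSeries.C (mu : ℂ)) = (mu : LaurentSeries ℂ) := by
    rw [map_natCast, map_natCast]
  rw [map_mul, h4, eq_inv_mul_iff_mul_eq₀ h3, h1]
  field_simp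

private lemma alv_resc (ω : ℂ) (q k : ℕ) :
    PowerSeries.rescale ω ((PowerSeries.C (q : ℂ) * PowerSeries.X) ^ k) =
      PowerSeries.C (ω ^ k) * (PowerSeries.C (q : ℂ) * PowerSeries.X) ^ k := by
  have h1 : PowerSeries.rescale ω (PowerSeries.C (q : ℂ)) = PowerSeries.C (q : ℂ) := by
    rw [map_natCast PowerSeries.C, map_natCast]
  rw [map_pow, map_mul, PowerSeries.rescale_X, h1, map_pow]
  ring

theorem exists_algV {n m B : ℕ} {f : ℤ[X][X]} (Fm : FamB n m B f) (hmin : Mnl Fm.pd)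
    (a lam mu : ℕ) (θ : Fin n → ℂ) (hθ : Rts (fa f a) θ)
    (hZ : Function.Injective
      (ZV Fm.pd.e m Fm.pd.q mu (fun u => wv n lam (θ u)) Fm.pd.x)) :
    ∃ (D : ℕ) (F : ℕ → ℕ → ℤ) (j : Fin D → Fin m × Equiv.Perm (Fin n)) (k0 : Fin D),
      D ≤ m * n.factorial ∧ Fm.pd.e * m ≤ D ∧ F 0 D = 1 ∧ (∀ i k, D < i + k → F i k = 0) ∧
      Irreducible (FQ D F) ∧ Function.Injective j ∧ j k0 = (⟨0, Fm.m1⟩, 1) ∧
      (fI D F).map (tq (Fm.pd.e * m) Fm.pd.q) =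
        ∏ k, (X - C (ZV Fm.pd.e m Fm.pd.q mu (fun u => wv n lam (θ u)) Fm.pd.x (j k))) := by
  classical
  obtain ⟨q, hqd⟩ : ∃ q, q = Fm.pd.q := ⟨_, rfl⟩
  obtain ⟨e, hed⟩ : ∃ e, e = Fm.pd.e := ⟨_, rfl⟩
  have hq1 : 1 ≤ q := hqd ▸ Fm.pd.q_pos
  have he1 : 1 ≤ e := hed ▸ Fm.pd.e_pos
  have hm1 : 1 ≤ m := Fm.m1
  have hem1 : 1 ≤ e * m := Nat.mul_pos he1 hm1
  obtain ⟨w, hw⟩ : ∃ w : Fin n → ℂ, w = fun u => wv n lam (θ u) := ⟨_, rfl⟩
  have hEM := fun (D : ℕ) (F : ℕ → ℕ → ℤ) (j : Fin D → Fin m × Equiv.Perm (Fin n)) (k0 : Fin D) =>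
    em_le_D (mu := mu) hm1 Fm.pd hmin F (fun u => wv n lam (θ u)) hZ j k0
  rw [← hqd, ← hed, ← hw] at hZ hEM
  rw [← hqd, ← hed, ← hw]
  -- the polynomial of the weights
  obtain ⟨qw, hqw⟩ := w_poly (fa f a) θ hθ.1 lam
  -- the two splittings over the Laurent series
  have hp : f.map (phL e q) = ∏ u, (X - C ((sL (e * m) q)⁻¹ * iL (Fm.pd.x u))) := by
    have h1 := fam_splitV Fm.monic Fm.deg Fm.cdeg Fm.pd
    rw [← hqd, ← hed] at h1
    exact h1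
  have hqq : (qw.map (C : ℤ →+* ℤ[X])).map (phL e q) =
      ∏ u, (X - C (iL (PowerSeries.C (w u)))) := by
    rw [Polynomial.map_map]
    have h1 : (phL e q).comp (C : ℤ →+* ℤ[X]) =
        (iL.comp (PowerSeries.C : ℂ →+* PowerSeries ℂ)).comp (Int.castRingHom ℂ) :=
      Subsingleton.elim _ _
    rw [h1, ← Polynomial.map_map, hqw, Polynomial.map_prod]
    refine prod_congr rfl fun u _ => ?_
    rw [Polynomial.map_sub, Polynomial.map_X, Polynomial.map_C, hw]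
    rfl
  obtain ⟨Φ0, hΦ1, -, hΦ3⟩ := prod_perm (phL e q) (phL_inj he1 hq1)
    (fun u => (sL (e * m) q)⁻¹ * iL (Fm.pd.x u)) (fun u => iL (PowerSeries.C (w u))) f
    (qw.map (C : ℤ →+* ℤ[X])) hp hqq
  have hz : ∀ τ : Equiv.Perm (Fin n), ∑ u, iL (PowerSeries.C (w (τ u))) *
      ((sL (e * m) q)⁻¹ * iL (Fm.pd.x u)) = (sL (e * m) q)⁻¹ * iL (Zt w Fm.pd.x τ) := by
    intro τ
    unfold Zt
    rw [map_sum, mul_sum]
    refine sum_congr rfl fun u _ => ?_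
    rw [map_mul]
    ring
  obtain ⟨V, hV⟩ : ∃ V : Equiv.Perm (Fin n) → PowerSeries ℂ, V = fun τ => Zt w Fm.pd.x τ +
    PowerSeries.C (mu : ℂ) * (PowerSeries.C (q : ℂ) * PowerSeries.X) ^ (e * (m - 1)) := ⟨_, rfl⟩
  -- the shifted polynomial
  obtain ⟨Φ, hΦ⟩ : ∃ Φ : ℤ[X][X], Φ = Φ0.comp (X - C ((mu : ℤ[X]) * X)) := ⟨_, rfl⟩
  have hΦm : Φ.Monic := by
    rw [hΦ]
    refine hΦ1.comp (monic_X_sub_C _) ?_
    rw [natDegree_X_sub_C]
    exact one_ne_zero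
  have hphX : phL e q ((mu : ℤ[X]) * X) = (mu : LaurentSeries ℂ) * (sL e q)⁻¹ := by
    rw [map_mul, map_natCast]
    congr 1
    unfold phL
    rw [coe_eval₂RingHom, eval₂_X]
  have hΦs : Φ.map (phL e q) =
      ∏ τ : Equiv.Perm (Fin n), (X - C ((sL (e * m) q)⁻¹ * iL (V τ))) := by
    rw [hΦ, Polynomial.map_comp, hΦ3, Polynomial.map_sub, map_X, map_C, hphX, Polynomial.prod_comp]
    refine prod_congr rfl fun τ _ => ?_
    rw [sub_comp, X_comp, C_comp, hz τ, hV, map_add, mul_add, ← alv_shift hm1 hq1, C_add]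
    ring
  -- the norm
  obtain ⟨Ψ, hΨm, hΨ⟩ := norm_pow (phL (e * m) q) (phL_inj hem1 hq1)
    (fun i : Fin m => (iL (PowerSeries.C ((rou (e * m) ^ (i : ℕ)) ^ e)) * sL e q)⁻¹)
    (rou_prodV he1 hm1 hq1) Φ hΦm
  have hroum : rou (e * m) ^ (e * m) = 1 := (rou_prim hem1).pow_eq_one
  have hrou0 : rou (e * m) ≠ 0 := by
    intro h
    rw [h, zero_pow (by omega)] at hroum
    exact zero_ne_one hroum
  have hfac : ∀ i : Fin m, Φ.map (eval₂RingHom (Int.castRingHom (LaurentSeries ℂ))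
      ((iL (PowerSeries.C ((rou (e * m) ^ (i : ℕ)) ^ e)) * sL e q)⁻¹)) =
      ∏ τ : Equiv.Perm (Fin n),
        (X - C ((sL (e * m) q)⁻¹ * iL (ZV e m q mu w Fm.pd.x (i, τ)))) := by
    intro i
    obtain ⟨R, hR⟩ := exists_resc (rou (e * m) ^ (i : ℕ)) (pow_ne_zero _ hrou0)
    have h1 : eval₂RingHom (Int.castRingHom (LaurentSeries ℂ))
        ((iL (PowerSeries.C ((rou (e * m) ^ (i : ℕ)) ^ e)) * sL e q)⁻¹) = R.comp (phL e q) := by
      apply Polynomial.ringHom_ext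
      · intro c
        rw [RingHom.comp_apply]
        unfold phL
        simp
      · rw [RingHom.comp_apply]
        unfold phL
        rw [coe_eval₂RingHom, eval₂_X, coe_eval₂RingHom, eval₂_X, map_inv₀]
        congr 1
        unfold sL
        rw [hR, alv_resc, map_mul]
    have h2 : R (sL (e * m) q) = sL (e * m) q := by
      unfold sL
      rw [hR, alv_resc, ← pow_mul, mul_comm (i : ℕ) (e * m), pow_mul, hroum, one_pow, map_one,
        one_mul]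
    rw [h1, ← Polynomial.map_map, hΦs, Polynomial.map_prod]
    refine prod_congr rfl fun τ _ => ?_
    rw [Polynomial.map_sub, map_X, map_C, map_mul, map_inv₀, h2, hR, hV]
    rfl
  have hΨs : Ψ.map (phL (e * m) q) = ∏ p : Fin m × Equiv.Perm (Fin n),
      (X - C ((sL (e * m) q)⁻¹ * iL (ZV e m q mu w Fm.pd.x p))) := by
    rw [hΨ, Fintype.prod_prod_type]
    exact prod_congr rfl fun i _ => hfac i
  have hs0 : (sL (e * m) q)⁻¹ ≠ 0 := inv_ne_zero (sL_ne hq1)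
  have hZinj : Function.Injective fun p : Fin m × Equiv.Perm (Fin n) =>
      (sL (e * m) q)⁻¹ * iL (ZV e m q mu w Fm.pd.x p) := by
    intro p p' h
    exact hZ (iL_inj (mul_left_cancel₀ hs0 h))
  obtain ⟨D, g, j, k0, hg1, hg2, hg3, hj, hk0, hg4⟩ := exists_fac (phL (e * m) q)
    (fun p : Fin m × Equiv.Perm (Fin n) => (sL (e * m) q)⁻¹ * iL (ZV e m q mu w Fm.pd.x p)) hZinj
    Ψ hΨm hΨs (⟨0, hm1⟩, 1)
  have hD1 : 1 ≤ D := by
    have := k0.2
    omega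
  have hdeg : ∀ i, (g.coeff i).natDegree ≤ D - i :=
    deg_bound hem1 hq1 g hg2 (fun k => ZV e m q mu w Fm.pd.x (j k)) hg4
  have hsp := arr_split hem1 hq1 g hg1 hg2 hdeg (fun k => ZV e m q mu w Fm.pd.x (j k)) hg4
  refine ⟨D, arr g, j, k0, ?_, hEM D (arr g) j k0 hsp, ?_, ?_,
    arr_irr g hg1 hg2 hD1 hdeg hg3, hj, hk0, hsp⟩
  · have h1 := Fintype.card_le_of_injective j hj
    rwa [Fintype.card_fin, Fintype.card_prod, Fintype.card_fin, Fintype.card_perm,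
      Fintype.card_fin] at h1
  · unfold arr
    have h1 : g.coeff D = 1 := by
      rw [← hg2]
      exact hg1.coeff_natDegree
    rw [h1, coeff_one_zero]
  · intro i k hik
    unfold arr
    by_cases hk : k ≤ D
    · apply coeff_eq_zero_of_natDegree_lt
      have := hdeg k
      omega
    · rw [coeff_eq_zero_of_natDegree_lt (by omega : g.natDegree < k), coeff_zero]

end Pool.Agent.H98.TY
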