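import Pool.Agent.H97.TV.Defs
import Pool.Agent.H87.TX.Defs

/-!
# MP_821da1_nt, THEOREM V: the twisted curve of a fibre of an arbitrary family (helper98): definitions

`Mnl pd`: the ramification index `pd.e` is minimal: the group of the `e`-th roots of unity acts faithfully on
the branches. `1/x = (q T)^e`, base coordinate `x^m`, `1/x^m = (q T)^(e m)`.
`VV τ = ∑_u W (τ u) x_u + mu (q T)^(e (m-1))` (this is `(∑_u W (τ u) x^m x_u + mu x) / x^m`),
`ZV (i, τ)` its rotation by the `i`-th power of the primitive `e m`-th root of unity, `i < m`.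
-/

namespace Pool.Agent.H98.TY

open Finset Polynomial Pool.Agent.H72.ES Pool.Agent.H87.SA2 Pool.Agent.H8.AW Pool.Agent.H52.AC
  Pool.Agent.H97.NW Pool.Agent.H97.FB Pool.Agent.H97.GA Pool.Agent.H87.TW Pool.Agent.H87.TX

/-- the rotations act faithfully on the branches -/
def Mnl {g : ℤ[X][X]} {n : ℕ} (pd : PData g n) : Prop :=
  ∀ ξ : ℂ, ξ ^ pd.e = 1 → (∀ u, PowerSeries.rescale ξ (pd.x u) = pd.x u) → ξ = 1

/-- the twisted series -/
noncomputable def VV {n : ℕ} (e m q mu : ℕ) (W : Fin n → ℂ) (x : Fin n → PowerSeries ℂ)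
    (τ : Equiv.Perm (Fin n)) : PowerSeries ℂ :=
  Zt W x τ + PowerSeries.C (mu : ℂ) * (PowerSeries.C (q : ℂ) * PowerSeries.X) ^ (e * (m - 1))

/-- the branches of the twisted curve over the line with coordinate `x^m` -/
noncomputable def ZV {n : ℕ} (e m q mu : ℕ) (W : Fin n → ℂ) (x : Fin n → PowerSeries ℂ)
    (p : Fin m × Equiv.Perm (Fin n)) : PowerSeries ℂ :=
  PowerSeries.rescale (rou (e * m) ^ (p.1 : ℕ)) (VV e m q mu W x p.2)

end Pool.Agent.H98.TY
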