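import Pool.Agent.H98.TY.Defs
import Pool.Agent.H87.TX.ZMG
import Pool.Agent.H52.AC.PRM

/-! # [H98 TY ROT] Rotations of the twisted series

Let `ω = rou (e m)`, primitive `e m`-th root of unity (`rou_prim` in `Pool/Agent/H87/TX/ZMG.lean`), `p = (i0, τ)`. `z = ζ * ω^i0` satisfies `z^(e m) = 1`, so `z = ω^k` with `k < e m` (`IsPrimitiveRoot.eq_pow_of_pow_eq_one`). Put `i = k % m`, `l = k / m`, `ξ = ω^(m l)`: `z = ω^i * ξ` and `ξ^e = (ω^(e m))^l = 1`.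
`perm_rot pd` (`Pool/Agent/H52/AC/PRM.lean`) gives `π` with `rescale ξ (x u) = x (π u)`. `rescale ζ (ZV p) = rescale (ζ * ω^i0) (VV τ) = rescale (ω^i * ξ) (VV τ) = rescale (ω^i) (rescale ξ (VV τ))` (`PowerSeries.rescale_mul` or coefficients), and
`rescale ξ (VV τ) = ∑_u C (W (τ u)) * x (π u) + C mu * (C q * (C ξ * X))^(e (m-1)) = ∑_u C (W ((τ * π⁻¹) u)) * x u + C mu * (C q * X)^(e (m-1)) = VV (τ * π⁻¹)` (`rescale` is a ring homomorphism, `rescale ξ (C b) = C b`, `PowerSeries.rescale_X`; `(C ξ)^(e (m-1)) = 1`; `Equiv.sum_comp π`). -/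

namespace Pool.Agent.H98.TY

open Finset Polynomial Pool.Agent.H72.ES Pool.Agent.H87.SA2 Pool.Agent.H8.AW Pool.Agent.H52.AC
  Pool.Agent.H87.TW Pool.Agent.H87.TX

private theorem rot_C (ξ a : ℂ) :
    PowerSeries.rescale ξ (PowerSeries.C a) = PowerSeries.C a := by
  ext n
  rw [PowerSeries.coeff_rescale, PowerSeries.coeff_C]
  split_ifs with h
  · rw [h, pow_zero, one_mul]
  · rw [mul_zero]

theorem rot_zv {g : ℤ[X][X]} {n m mu : ℕ} (hm : 1 ≤ m) (pd : PData g n) (W : Fin n → ℂ) {ζ : ℂ}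
    (hζ : ζ ^ (pd.e * m) = 1) (p : Fin m × Equiv.Perm (Fin n)) :
    ∃ (i : Fin m) (ξ : ℂ) (π : Equiv.Perm (Fin n)), ξ ^ pd.e = 1 ∧
      (∀ u, PowerSeries.rescale ξ (pd.x u) = pd.x (π u)) ∧
      ζ * rou (pd.e * m) ^ (p.1 : ℕ) = rou (pd.e * m) ^ (i : ℕ) * ξ ∧
      PowerSeries.rescale ζ (ZV pd.e m pd.q mu W pd.x p) =
        ZV pd.e m pd.q mu W pd.x (i, p.2 * π⁻¹) := by
  classical
  obtain ⟨ω, hω⟩ : ∃ ω, ω = rou (pd.e * m) := ⟨_, rfl⟩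
  have hem : 1 ≤ pd.e * m := Nat.mul_pos pd.e_pos hm
  have hprim : IsPrimitiveRoot ω (pd.e * m) := by
    rw [hω]
    exact rou_prim hem
  have : NeZero (pd.e * m) := ⟨by omega⟩
  have hz : (ζ * ω ^ (p.1 : ℕ)) ^ (pd.e * m) = 1 := by
    rw [mul_pow, hζ, one_mul, ← pow_mul, mul_comm, pow_mul, hprim.pow_eq_one, one_pow]
  obtain ⟨k, -, hk⟩ := hprim.eq_pow_of_pow_eq_one hz
  obtain ⟨ξ, hξ⟩ : ∃ ξ, ξ = ω ^ (m * (k / m)) := ⟨_, rfl⟩
  have hξe : ξ ^ pd.e = 1 := by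
    rw [hξ, ← pow_mul, show m * (k / m) * pd.e = pd.e * m * (k / m) by ring, pow_mul,
      hprim.pow_eq_one, one_pow]
  obtain ⟨π, hπ⟩ := perm_rot pd hξe
  have him : k % m < m := Nat.mod_lt _ hm
  have hkk : ω ^ k = ω ^ (k % m) * ξ := by
    rw [hξ, ← pow_add, Nat.mod_add_div]
  refine ⟨⟨k % m, him⟩, ξ, π, hξe, hπ, ?_, ?_⟩
  · rw [← hω, ← hk, hkk]
  · unfold ZV
    rw [← hω, PowerSeries.rescale_rescale]
    show PowerSeries.rescale (ω ^ (p.1 : ℕ) * ζ) (VV pd.e m pd.q mu W pd.x p.2) =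
      PowerSeries.rescale (ω ^ (k % m)) (VV pd.e m pd.q mu W pd.x (p.2 * π⁻¹))
    rw [mul_comm (ω ^ (p.1 : ℕ)) ζ, ← hk, hkk, mul_comm (ω ^ (k % m)) ξ,
      ← PowerSeries.rescale_rescale]
    congr 1
    unfold VV Zt
    rw [map_add, map_sum, map_mul, rot_C, map_pow, map_mul, rot_C, PowerSeries.rescale_X]
    congr 1
    · rw [← Equiv.sum_comp π (fun u => PowerSeries.C (W ((p.2 * π⁻¹) u)) * pd.x u)]
      refine Finset.sum_congr rfl fun u _ => ?_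
      have h1 : (p.2 * π⁻¹) (π u) = p.2 u := by simp
      rw [map_mul, rot_C, hπ u, h1]
    · congr 1
      rw [show PowerSeries.C ((pd.q : ℕ) : ℂ) * (PowerSeries.C ξ * PowerSeries.X) =
        PowerSeries.C ξ * (PowerSeries.C ((pd.q : ℕ) : ℂ) * PowerSeries.X) by ring, mul_pow,
        ← map_pow PowerSeries.C ξ, pow_mul ξ, hξe, one_pow, map_one, one_mul]

end Pool.Agent.H98.TY
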