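import Pool.Agent.H98.TY.ROT
import Pool.Agent.H98.TY.ZVG

/-! # [H98 TY TAV] The permutations of the branches of the twisted curve

Model: `tau_of` in `Pool/Agent/H87/TW/TAU.lean`. `tau i = (j i).2`. `ω = rou (e m)`.
GALOIS. Given `σ, ν` (`Prm θ σ ν`: `σ` of `θ u` is `θ (ν u)`), `i, i'`, all coefficients conjugate. `perm_gal pd σ` (`Pool/Agent/H52/AC/PRM.lean`) gives `π0` with `σ (coeff k (x u)) = coeff k (x (π0 u))`. Let `(i0, τ) = j i`. Lift `ω`, `θ u`, `coeff k (x u)` (`coeff_mem`) to `AA` (`ω` is algebraic: `ω^(e m) = 1`, `rou_prim`). By `zv_coeff`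
`coeff k (ZV (j i)) = (ω^i0)^k * (∑_u wv n lam (θ (τ u)) * coeff k (x u) + [k = e (m-1)] mu q^k)` is an element of `AA`, its image under `σ` is (`map_sum`, `map_wv`) `(σ ω ^ i0)^k * (∑_u wv n lam (θ (ν (τ u))) * coeff k (x (π0 u)) + [k = e (m-1)] mu q^k)`, and (`Equiv.sum_comp π0`) this is
`coeff k (rescale ζ (ZV (⟨0, _⟩, ν * τ * π0⁻¹)))` with `ζ = σ ω ^ i0` (`zv_coeff`, `ω^0 = 1`), `ζ^(e m) = 1`. So `ZV (j i') = rescale ζ (ZV (0, ν * τ * π0⁻¹)) = ZV (i'', ν * τ * π0⁻¹ * π1⁻¹)` by `rot_zv` (`π1`, `ξ`), and `hZ`: `(j i').2 = ν * τ * π0⁻¹ * π1⁻¹ = ν * τ * (π1 * π0)⁻¹`.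
`PrmB pd σ (π1 * π0)` with `ξ`: `ξ^k * σ a = ξ^k * coeff k (x (π0 u)) = coeff k (rescale ξ (x (π0 u))) = coeff k (x (π1 (π0 u)))`.
ROTATION. `ζ^(P.C.pd.e) = 1`, `P.C.pd.e = e m`. `rot_zv` with `p = j i`: `ZV (j i') = rescale ζ (ZV (j i)) = ZV (i'', (j i).2 * π⁻¹)`, `hZ`; `PrmB pd idA π` with `ξ` (`idA a = a`). -/

namespace Pool.Agent.H98.TY

open Finset Polynomial Pool.Agent.H72.ES Pool.Agent.H87.SA2 Pool.Agent.H8.AW Pool.Agent.H52.AC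
  Pool.Agent.H97.NW Pool.Agent.H97.GA Pool.Agent.H37.TU Pool.Agent.H97.TU Pool.Agent.H97.TV
  Pool.Agent.H87.TW Pool.Agent.H87.TX

/-- the explicit form, `tau i = (j i).2` -/
theorem tau_gd {g : ℤ[X][X]} {n m ν mu : ℕ} (hm : 1 ≤ m) (pd : PData g n) (P : Ptd ν)
    (θ : Fin n → ℂ) (hθ : ∀ u, θ u ∈ AA) (lam : ℕ) (he : P.C.pd.e = pd.e * m)
    (j : Fin P.d → Fin m × Equiv.Perm (Fin n)) (h1 : (j P.i).2 = 1)
    (hZ : Function.Injective (ZV pd.e m pd.q mu (fun u => wv n lam (θ u)) pd.x))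
    (hx : ∀ i, P.C.pd.x i = ZV pd.e m pd.q mu (fun u => wv n lam (θ u)) pd.x (j i)) :
    (j P.i).2 = 1 ∧
    (∀ (σ : AA →+* ℂ) (ν : Equiv.Perm (Fin n)), Prm θ σ ν → ∀ i i' : Fin P.d,
      (∀ k : ℕ, H97.FB.Cj σ (PowerSeries.coeff k (P.C.pd.x i)) (PowerSeries.coeff k (P.C.pd.x i'))) →
      ∃ π, PrmB pd σ π ∧ (j i').2 = ν * (j i).2 * π⁻¹) ∧
    ∀ ζ : ℂ, ζ ^ P.C.pd.e = 1 → ∀ i i' : Fin P.d,
      PowerSeries.rescale ζ (P.C.pd.x i) = P.C.pd.x i' →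
      ∃ π, PrmB pd idA π ∧ (j i').2 = (j i).2 * π⁻¹ := by
  have he1 : 1 ≤ pd.e := pd.e_pos
  have hem1 : 1 ≤ pd.e * m := Nat.mul_pos he1 hm
  obtain ⟨W, hW⟩ : ∃ W : Fin n → ℂ, W = fun u => wv n lam (θ u) := ⟨_, rfl⟩
  rw [← hW] at hZ hx
  have hprim : IsPrimitiveRoot (rou (pd.e * m)) (pd.e * m) := rou_prim hem1
  have hωA : rou (pd.e * m) ∈ AA := mem_AA (hprim.isIntegral (by omega))
  obtain ⟨ω', hω'⟩ : ∃ ω' : AA, (ω' : ℂ) = rou (pd.e * m) := ⟨⟨_, hωA⟩, rfl⟩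
  have hωem : ω' ^ (pd.e * m) = 1 := by
    apply Subtype.ext
    have h2 : ((ω' ^ (pd.e * m) : AA) : ℂ) = (ω' : ℂ) ^ (pd.e * m) := rfl
    rw [h2, hω', hprim.pow_eq_one]
    rfl
  obtain ⟨θ', hθ'⟩ : ∃ θ' : Fin n → AA, ∀ u, ((θ' u : AA) : ℂ) = θ u :=
    ⟨fun u => ⟨θ u, hθ u⟩, fun _ => rfl⟩
  obtain ⟨x', hx'⟩ : ∃ x' : Fin n → ℕ → AA, ∀ u k,
      ((x' u k : AA) : ℂ) = PowerSeries.coeff k (pd.x u) :=
    ⟨fun u k => ⟨_, coeff_mem pd u k⟩, fun _ _ => rfl⟩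
  refine ⟨h1, ?_, ?_⟩
  · intro σ ν' hν i i' hk
    obtain ⟨π0, hπ0⟩ := perm_gal pd σ
    obtain ⟨τ, hτ⟩ : ∃ τ, τ = (j i).2 := ⟨_, rfl⟩
    obtain ⟨i0, hi0⟩ : ∃ i0, i0 = (j i).1 := ⟨_, rfl⟩
    have hji : j i = (i0, τ) := by rw [hi0, hτ]
    obtain ⟨ζ, hζd⟩ : ∃ ζ : ℂ, ζ = σ ω' ^ (i0 : ℕ) := ⟨_, rfl⟩
    have hζ : ζ ^ (pd.e * m) = 1 := by
      rw [hζd, ← pow_mul, mul_comm, pow_mul, ← map_pow, hωem, map_one, one_pow]
    have hkey : PowerSeries.rescale ζ (ZV pd.e m pd.q mu W pd.x (⟨0, hm⟩, ν' * τ * π0⁻¹)) =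
        ZV pd.e m pd.q mu W pd.x (j i') := by
      ext k
      obtain ⟨c, hc⟩ : ∃ c : AA, c = (ω' ^ (i0 : ℕ)) ^ k *
          (∑ u, wv n lam (θ' (τ u)) * x' u k +
            if k = pd.e * (m - 1) then (mu : AA) * (pd.q : AA) ^ (pd.e * (m - 1)) else 0) :=
        ⟨_, rfl⟩
      have hcv : algebraMap AA ℂ c = PowerSeries.coeff k (P.C.pd.x i) := by
        rw [hc, hx, hji, zv_coeff, map_mul, map_pow, map_pow, map_add, map_sum]
        have e1 : algebraMap AA ℂ ω' = rou (pd.e * m) := hω'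
        rw [e1]
        congr 2
        · refine sum_congr rfl fun u _ => ?_
          rw [map_mul, map_wv]
          have e2 : algebraMap AA ℂ (θ' (τ u)) = θ (τ u) := hθ' _
          have e3 : algebraMap AA ℂ (x' u k) = PowerSeries.coeff k (pd.x u) := hx' u k
          rw [e2, e3, hW]
        · split_ifs
          · rw [map_mul, map_pow, map_natCast, map_natCast]
          · rw [map_zero]
      have h2 := hk k c hcv
      rw [hx i'] at h2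
      rw [← h2, hc, PowerSeries.coeff_rescale, zv_coeff, map_mul, map_pow, map_pow, map_add,
        map_sum]
      rw [← hζd]
      show ζ ^ k * ((rou (pd.e * m) ^ 0) ^ k * (∑ u, W ((ν' * τ * π0⁻¹) u) *
        PowerSeries.coeff k (pd.x u) + _)) = _
      rw [pow_zero, one_pow, one_mul]
      congr 2
      · have e4 : ∀ u, σ (wv n lam (θ' (τ u)) * x' u k) =
            W (ν' (τ u)) * PowerSeries.coeff k (pd.x (π0 u)) := by
          intro u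
          rw [map_mul, map_wv, hν (τ u) (θ' (τ u)) (hθ' _), hπ0 u k (x' u k) (hx' u k), hW]
        rw [sum_congr rfl fun u _ => e4 u,
          ← Equiv.sum_comp π0 (fun u => W ((ν' * τ * π0⁻¹) u) * PowerSeries.coeff k (pd.x u))]
        refine sum_congr rfl fun u _ => ?_
        simp
      · split_ifs
        · rw [map_mul, map_pow, map_natCast, map_natCast]
        · rw [map_zero]
    obtain ⟨i2, ξ, π1, hξ, hrot, -, hres⟩ := rot_zv (mu := mu) hm pd W hζ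
      (⟨0, hm⟩, ν' * τ * π0⁻¹)
    rw [hkey] at hres
    have h3 := hZ hres
    refine ⟨π1 * π0, ⟨ξ, hξ, fun u k b hb => ?_⟩, ?_⟩
    · rw [hπ0 u k b hb, ← PowerSeries.coeff_rescale, hrot]
      rfl
    · show (j i').2 = ν' * (j i).2 * (π1 * π0)⁻¹
      rw [h3, ← hτ, mul_inv_rev]
      show ν' * τ * π0⁻¹ * π1⁻¹ = _
      simp only [mul_assoc]
  · intro ζ hζ i i' hr
    rw [he] at hζ
    obtain ⟨i2, ξ, π1, hξ, hrot, -, hres⟩ := rot_zv (mu := mu) hm pd W hζ (j i)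
    rw [hx, hx, hres] at hr
    have h3 := hZ hr
    refine ⟨π1, ⟨ξ, hξ, fun u k b hb => ?_⟩, ?_⟩
    · have e5 : idA b = PowerSeries.coeff k (pd.x u) := hb
      rw [e5, ← PowerSeries.coeff_rescale, hrot]
    · show (j i').2 = (j i).2 * π1⁻¹
      rw [← h3]

theorem tau_g {g : ℤ[X][X]} {n m ν mu : ℕ} (hm : 1 ≤ m) (pd : PData g n) (P : Ptd ν)
    (θ : Fin n → ℂ) (hθ : ∀ u, θ u ∈ AA) (lam : ℕ) (he : P.C.pd.e = pd.e * m)
    (j : Fin P.d → Fin m × Equiv.Perm (Fin n)) (h1 : (j P.i).2 = 1)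
    (hZ : Function.Injective (ZV pd.e m pd.q mu (fun u => wv n lam (θ u)) pd.x))
    (hx : ∀ i, P.C.pd.x i = ZV pd.e m pd.q mu (fun u => wv n lam (θ u)) pd.x (j i)) :
    TauG θ pd P := ⟨fun i => (j i).2, tau_gd hm pd P θ hθ lam he j h1 hZ hx⟩

end Pool.Agent.H98.TY
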