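import Pool.Agent.H98.MR.Defs
import Pool.Agent.H98.TY.ALV
import Pool.Agent.H98.TY.CRV
import Pool.Agent.H98.TY.MUV
import Pool.Agent.H98.TY.TAV
import Pool.Agent.H87.TW.SPR
import Pool.Agent.H97.FB.ANV
import Pool.Agent.H97.FC.THB
import Pool.Agent.H97.TV.Defs2
import Pool.Agent.H97.TV.EQC

/-! # [H98 TY TYF] The twisted pointed curve, minimal ramification (assembly; helper98)

Model: `exists_twM` in `Pool/Agent/H87/TX/TXF.lean`. `T = 1 / XA pd a`, `(q T)^e = 1 / a`. -/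

namespace Pool.Agent.H98.TY

open Finset Polynomial Pool.Agent.H72.ES Pool.Agent.H87.SA2 Pool.Agent.H8.AW Pool.Agent.H52.AC
  Pool.Agent.H97.NW Pool.Agent.H97.FB Pool.Agent.H97.FC Pool.Agent.H97.GA Pool.Agent.H37.TU
  Pool.Agent.H97.TU Pool.Agent.H97.TV Pool.Agent.H98.MR Pool.Agent.H87.TW Pool.Agent.H87.TX

private theorem tyf_int {n : ℕ} {f : ℤ[X][X]} (hm : f.Monic) {a : ℕ} {θ : Fin n → ℂ}
    (h : Rts (fa f a) θ) (u : Fin n) : IsIntegral ℤ (θ u) := by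
  refine ⟨fa f a, hm.map _, ?_⟩
  have h1 : ((fa f a).map (Int.castRingHom ℂ)).eval (θ u) = 0 := by
    rw [h.1, eval_prod]
    exact prod_eq_zero (mem_univ u) (by simp)
  rw [eval_map] at h1
  exact h1

private theorem tyf_AA {z : ℂ} (hz : IsIntegral ℤ z) : z ∈ AA := by
  rw [mem_algebraicClosure_iff]
  exact (hz.tower_top (A := ℚ)).isAlgebraic

private theorem tyf_wv {n lam Λ a K0 : ℕ} (hlam : lam ≤ Λ) (ha : 1 ≤ a) (hb : n * (Λ + 1) ^ n ≤ a)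
    {θ : ℂ} (hθ : ‖θ‖ ≤ (a : ℝ) ^ K0) : ‖wv n lam θ‖ ≤ (a : ℝ) ^ (K0 * n + 1) := by
  unfold wv
  have ha1 : (1 : ℝ) ≤ a := by exact_mod_cast ha
  have h1 : ∀ l ∈ range n, ‖(lam : ℂ) ^ l * θ ^ l‖ ≤ ((Λ : ℝ) + 1) ^ n * (a : ℝ) ^ (K0 * n) := by
    intro l hl
    have hl' : l ≤ n := (mem_range.1 hl).le
    rw [norm_mul, _root_.norm_pow, _root_.norm_pow, Complex.norm_natCast]
    refine mul_le_mul ?_ ?_ (by positivity) (by positivity)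
    · have h2 : (lam : ℝ) ≤ (Λ : ℝ) + 1 := by
        have : (lam : ℝ) ≤ Λ := by exact_mod_cast hlam
        linarith
      refine (pow_le_pow_left₀ (by positivity) h2 l).trans ?_
      exact pow_le_pow_right₀ (by have : (0 : ℝ) ≤ Λ := by positivity
                                  linarith) hl'
    · refine (pow_le_pow_left₀ (norm_nonneg _) hθ l).trans ?_
      rw [← pow_mul]
      exact pow_le_pow_right₀ ha1 (Nat.mul_le_mul_left _ hl')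
  refine (norm_sum_le _ _).trans ((sum_le_sum h1).trans ?_)
  rw [sum_const, card_range, nsmul_eq_mul]
  have h3 : (n : ℝ) * ((Λ : ℝ) + 1) ^ n ≤ a := by exact_mod_cast hb
  calc (n : ℝ) * (((Λ : ℝ) + 1) ^ n * (a : ℝ) ^ (K0 * n)) =
        ((n : ℝ) * ((Λ : ℝ) + 1) ^ n) * (a : ℝ) ^ (K0 * n) := by ring
    _ ≤ a * (a : ℝ) ^ (K0 * n) := mul_le_mul_of_nonneg_right h3 (by positivity)
    _ = (a : ℝ) ^ (K0 * n + 1) := by rw [pow_succ]; ring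

theorem exists_ty (n m : ℕ) (hn : 2 ≤ n) (hm : 1 ≤ m) : ∃ κ : ℕ, 1 ≤ κ ∧ ∀ c : ℕ, ∃ C : ℕ,
    ∀ (B : ℕ) (f : ℤ[X][X]) (Fm : FamB n m B f), Mnl Fm.pd → ∀ a : ℕ, B ^ C ≤ a → ∀ ν : ℕ,
    m * n.factorial ≤ ν → ∃ P : Ptd ν, P.x = ((a ^ m : ℕ) : ℤ) ∧ Rlx κ c P ∧
      TauE (thA Fm.pd m a) Fm.pd P := by
  classical
  obtain ⟨Λ, hΛ⟩ := exists_lmu n m hm
  obtain ⟨K, hK1, hK⟩ := exists_crvV (m * n.factorial) m n.factorial hm
  obtain ⟨C2, hC2⟩ := thA_rts n m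
  obtain ⟨K0, hK0⟩ := thA_norm n m
  refine ⟨(K0 * n + 4) * K, Nat.mul_pos (by omega) hK1, fun c => ?_⟩
  obtain ⟨CC, hCC⟩ : ∃ CC, CC = n * (Λ + 1) ^ n + n + c + Λ + n.factorial + C2 + K0 + 2 :=
    ⟨_, rfl⟩
  refine ⟨CC, ?_⟩
  intro B f Fm hmin a haC ν hν
  have hB2 : 2 ≤ B := Fm.B2
  have hpow : ∀ k : ℕ, k ≤ CC → B ^ k ≤ a := fun k hk =>
    (Nat.pow_le_pow_right (by omega) hk).trans haC
  have hlt : ∀ k : ℕ, k ≤ CC → k < a := fun k hk =>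
    (Nat.lt_pow_self (by omega : 1 < B)).trans_le (hpow k hk)
  have ha1 : 1 ≤ a := hlt 0 (by omega)
  have ha2 : 2 ≤ a := hlt 1 (by omega)
  have hab : n * (Λ + 1) ^ n ≤ a := (hlt _ (by omega)).le
  have han : n ≤ a := (hlt _ (by omega)).le
  have haΛ : Λ ≤ a := (hlt _ (by omega)).le
  have hBa2 : B ^ 2 ≤ a := hpow 2 (by omega)
  have hBa : B < a := by nlinarith
  have haR1 : (1 : ℝ) ≤ a := by exact_mod_cast ha1
  have haR0 : (0 : ℝ) < a := by linarith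
  have hBR2 : (2 : ℝ) ≤ B := by exact_mod_cast hB2
  have hBaR : (B : ℝ) < a := by exact_mod_cast hBa
  have hnaR : (n : ℝ) ≤ a := by exact_mod_cast han
  have hq1 : 1 ≤ Fm.pd.q := Fm.pd.q_pos
  have hqR1 : (1 : ℝ) ≤ Fm.pd.q := by exact_mod_cast hq1
  have hq0 : (Fm.pd.q : ℂ) ≠ 0 := by
    have : Fm.pd.q ≠ 0 := by omega
    exact_mod_cast this
  have ha0 : (a : ℂ) ≠ 0 := by
    have : a ≠ 0 := by omega
    exact_mod_cast this
  have hqB : Fm.pd.q ≤ B := Fm.q_le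
  have he1 : 1 ≤ Fm.pd.e := Fm.pd.e_pos
  -- the parameter
  have hX := anv_XA_pos Fm.pd ha1
  have hBX : (B : ℝ) < XA Fm.pd a := by
    refine lt_of_pow_lt_pow_left₀ Fm.pd.e hX.le ?_
    rw [anv_XA_pow]
    have h1 : ((B ^ Fm.pd.e : ℕ) : ℝ) < a := by
      have h2 : B ^ Fm.pd.e < B ^ (n.factorial + 1) :=
        Nat.pow_lt_pow_right (by omega) (Nat.lt_succ_of_le Fm.e_le)
      exact_mod_cast lt_of_lt_of_le h2 (hpow _ (by omega))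
    have h2 : (1 : ℝ) ≤ (Fm.pd.q : ℝ) ^ Fm.pd.e := one_le_pow₀ hqR1
    calc (B : ℝ) ^ Fm.pd.e = ((B ^ Fm.pd.e : ℕ) : ℝ) := by push_cast; rfl
      _ < a := h1
      _ = 1 * a := (one_mul _).symm
      _ ≤ (Fm.pd.q : ℝ) ^ Fm.pd.e * a := mul_le_mul_of_nonneg_right h2 haR0.le
  obtain ⟨T, hT⟩ : ∃ T : ℂ, T = ((1 / XA Fm.pd a : ℝ) : ℂ) := ⟨_, rfl⟩
  have hTnorm : ‖T‖ = 1 / XA Fm.pd a := by
    rw [hT, Complex.norm_real, Real.norm_eq_abs, abs_of_pos (one_div_pos.2 hX)]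
  have hTn : (B : ℝ) * ‖T‖ < 1 := by
    rw [hTnorm, mul_one_div, div_lt_one hX]
    exact hBX
  have hRT : Fm.pd.R * ‖T‖ < 1 :=
    (mul_le_mul_of_nonneg_right Fm.R_le (norm_nonneg _)).trans_lt hTn
  have hT0 : T ≠ 0 := by
    rw [hT]
    exact_mod_cast (one_div_pos.2 hX).ne'
  have hXC : (XA Fm.pd a : ℂ) ^ Fm.pd.e = (Fm.pd.q : ℂ) ^ Fm.pd.e * a := by
    have h5 := congrArg (fun z : ℝ => (z : ℂ)) (anv_XA_pow Fm.pd a)
    push_cast at h5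
    exact h5
  have hXC0 : (XA Fm.pd a : ℂ) ≠ 0 := by exact_mod_cast hX.ne'
  have haT : ((Fm.pd.q : ℂ) * T) ^ Fm.pd.e * a = 1 := by
    have h1 : T = 1 / (XA Fm.pd a : ℂ) := by
      rw [hT]
      push_cast
      rfl
    rw [h1, mul_pow, div_pow, one_pow, hXC]
    have h2 : (Fm.pd.q : ℂ) ^ Fm.pd.e ≠ 0 := pow_ne_zero _ hq0
    field_simp
  have hRB : ∀ u k, ‖PowerSeries.coeff k (Fm.pd.x u)‖ ≤ (B : ℝ) ^ (k + 1) := fun u k =>
    (Fm.pd.growth u k).trans (pow_le_pow_left₀ (by linarith [Fm.pd.R_ge]) Fm.R_le _)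
  obtain ⟨θ, hθ⟩ : ∃ θ : Fin n → ℂ, θ = thA Fm.pd m a := ⟨_, rfl⟩
  have hR : Rts (fa f a) θ := by
    rw [hθ]
    exact hC2 B f Fm a (hpow _ (by omega))
  have hth : ∀ u, ‖θ u‖ ≤ (a : ℝ) ^ K0 := by
    rw [hθ]
    exact hK0 B f Fm a (hpow _ (by omega))
  have hθv : ∀ u, θ u = (a : ℂ) ^ m * evz T (Fm.pd.x u) := by
    intro u
    have hgr : Gr (1 / XA Fm.pd a) (Fm.pd.x u) := by
      refine anv_gr Fm.pd (one_div_pos.2 hX).le ?_ u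
      rw [← hTnorm]
      exact hRT
    rw [hθ, hT]
    unfold thA
    rw [evC_eq_evz (one_div_pos.2 hX).le hgr]
  -- the weight and mu
  obtain ⟨lam, hlam, mu, hmule, hZi, huni⟩ := hΛ (rv n m f) Fm.pd θ a T hT0 hRT hR.2 hθv
  obtain ⟨W, hW⟩ : ∃ W : Fin n → ℂ, W = fun u => wv n lam (θ u) := ⟨_, rfl⟩
  have hmua : mu ≤ a := hmule.trans haΛ
  obtain ⟨D, F, j, k0, hDn, hmD, hF1, hF2, hFirr, hjinj, hj0, hsplit⟩ := exists_algV Fm hmin a lam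
    mu θ hR hZi
  rw [← hW] at hZi huni hsplit
  obtain ⟨y0, hy0⟩ := tw_int (fa f a) θ hR.1 lam
  obtain ⟨y, hy⟩ : ∃ y : ℤ, y = y0 + mu * a := ⟨_, rfl⟩
  have hyC : (y : ℂ) = ∑ u, W u * θ u + (mu : ℂ) * a := by
    rw [hy, hW]
    push_cast
    rw [hy0]
  obtain ⟨Z, hZ⟩ : ∃ Z : Fin D → PowerSeries ℂ,
      Z = fun k => ZV Fm.pd.e m Fm.pd.q mu W Fm.pd.x (j k) := ⟨_, rfl⟩
  obtain ⟨A, hA⟩ : ∃ A : ℕ, A = a ^ (K0 * n + 4) := ⟨_, rfl⟩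
  have hAR : (A : ℝ) = (a : ℝ) ^ (K0 * n + 4) := by rw [hA]; push_cast; rfl
  have haA : a ≤ A := by
    rw [hA]
    exact Nat.le_self_pow (by omega) a
  have hWn : ∀ u, ‖W u‖ ≤ (a : ℝ) ^ (K0 * n + 1) := fun u => by
    rw [hW]
    exact tyf_wv hlam ha1 hab (hth u)
  have hgr : ∀ i k, ‖PowerSeries.coeff k (Z i)‖ ≤ (A : ℝ) * (B : ℝ) ^ k := by
    intro i k
    rw [hZ]
    refine (zv_growth he1 hm W Fm.pd.x (by positivity) (by positivity) le_rfl (by linarith)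
      (by exact_mod_cast hqB) hWn hRB (j i) k).trans ?_
    refine mul_le_mul_of_nonneg_right ?_ (by positivity)
    rw [hAR]
    have h1 : (n : ℝ) * (a : ℝ) ^ (K0 * n + 1) * B ≤ (a : ℝ) ^ (K0 * n + 3) := by
      calc (n : ℝ) * (a : ℝ) ^ (K0 * n + 1) * B ≤ a * (a : ℝ) ^ (K0 * n + 1) * a := by
            refine mul_le_mul ?_ hBaR.le (by positivity) (by positivity)
            exact mul_le_mul_of_nonneg_right hnaR (by positivity)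
        _ = (a : ℝ) ^ (K0 * n + 3) := by ring
    have h2 : (mu : ℝ) ≤ (a : ℝ) ^ (K0 * n + 3) :=
      (by exact_mod_cast hmua : (mu : ℝ) ≤ a).trans (le_self_pow₀ haR1 (by omega))
    have h3 : (2 : ℝ) ≤ a := by exact_mod_cast ha2
    calc (n : ℝ) * (a : ℝ) ^ (K0 * n + 1) * B + mu ≤ 2 * (a : ℝ) ^ (K0 * n + 3) := by linarith
      _ ≤ a * (a : ℝ) ^ (K0 * n + 3) := mul_le_mul_of_nonneg_right h3 (by positivity)
      _ = (a : ℝ) ^ (K0 * n + 4) := by ring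
  have hBA : (B : ℝ) ≤ A := hBaR.le.trans (by exact_mod_cast haA)
  have hZinj : Function.Injective Z := by
    intro k k' hkk
    apply hjinj
    rw [hZ] at hkk
    exact hZi hkk
  have hWint : ∀ u, IsIntegral ℤ (W u) := by
    intro u
    rw [hW]
    unfold wv
    refine IsIntegral.sum _ fun l _ => ?_
    refine IsIntegral.mul (IsIntegral.pow ?_ l) (IsIntegral.pow (tyf_int Fm.monic hR u) l)
    exact_mod_cast (isIntegral_algebraMap (R := ℤ) (A := ℂ) (x := (lam : ℤ)))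
  obtain ⟨Cv, hCe, hCq, hCx⟩ := hK Fm.pd.e ν D A Fm.pd.q F Z he1 Fm.e_le hDn (hDn.trans hν) hmD
    (ha2.trans haA) hq1 (hqB.trans (hBa.le.trans haA)) hF1 hF2 hFirr hZinj
    (fun i k => by rw [hZ]; exact zv_int he1 hm W Fm.pd.x hWint Fm.pd.integral (j i) k)
    (fun i k => (hgr i k).trans (mul_le_mul_of_nonneg_left
      (pow_le_pow_left₀ (by positivity) hBA k) (by positivity))) (by
      rw [hZ]
      exact hsplit)
  -- the values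
  have ham : (a : ℂ) ^ m ≠ 0 := pow_ne_zero m ha0
  have hval0 : (a : ℂ) ^ m * evz T (ZV Fm.pd.e m Fm.pd.q mu W Fm.pd.x (⟨0, hm⟩, 1)) = y := by
    rw [zv_ev he1 hm W Fm.pd.x (by positivity) hRB _ hTn, hyC]
    show (a : ℂ) ^ m * (∑ u, W u * evz (rou (Fm.pd.e * m) ^ 0 * T) (Fm.pd.x u) +
      (mu : ℂ) * ((Fm.pd.q : ℂ) * (rou (Fm.pd.e * m) ^ 0 * T)) ^ (Fm.pd.e * (m - 1))) = _
    rw [pow_zero, one_mul, mul_add, mul_sum]
    congr 1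
    · refine sum_congr rfl fun u _ => ?_
      rw [hθv u]
      ring
    · have h1 : (a : ℂ) ^ m = (a : ℂ) ^ (m - 1) * a := by
        rw [← pow_succ]
        congr 1
        omega
      have h3 : (((Fm.pd.q : ℂ) * T) ^ Fm.pd.e) ^ (m - 1) * (a : ℂ) ^ (m - 1) = 1 := by
        rw [← mul_pow, haT, one_pow]
      rw [h1, pow_mul]
      calc (a : ℂ) ^ (m - 1) * a * ((mu : ℂ) * (((Fm.pd.q : ℂ) * T) ^ Fm.pd.e) ^ (m - 1)) =
            (mu : ℂ) * a * ((((Fm.pd.q : ℂ) * T) ^ Fm.pd.e) ^ (m - 1) * (a : ℂ) ^ (m - 1)) := by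
            ring
        _ = (mu : ℂ) * a := by rw [h3, mul_one]
  have hcast : ((((a ^ m : ℕ) : ℤ)) : ℂ) = (a : ℂ) ^ m := by push_cast; rfl
  have hTx : ((Cv.pd.q : ℂ) * T) ^ Cv.pd.e * ((((a ^ m : ℕ) : ℤ)) : ℂ) = 1 := by
    rw [hCe, hCq, hcast, pow_mul, ← mul_pow, haT, one_pow]
  have hyv : evz T (Cv.pd.x k0) = (y : ℂ) / ((((a ^ m : ℕ) : ℤ)) : ℂ) := by
    rw [hCx, hcast, eq_div_iff ham, mul_comm, hZ]
    show (a : ℂ) ^ m * evz T (ZV Fm.pd.e m Fm.pd.q mu W Fm.pd.x (j k0)) = _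
    rw [hj0]
    exact hval0
  have huniq : ∀ i, evz T (Cv.pd.x i) = (y : ℂ) / ((((a ^ m : ℕ) : ℤ)) : ℂ) → i = k0 := by
    intro i hi
    by_contra hne
    have hjne : j i ≠ (⟨0, Fm.m1⟩, 1) := fun h4 => hne (hjinj (h4.trans hj0.symm))
    refine huni (j i) hjne ?_
    rw [← hyv, hCx, hZ] at hi
    have hi' : evz T (ZV Fm.pd.e m Fm.pd.q mu W Fm.pd.x (j i)) =
        evz T (ZV Fm.pd.e m Fm.pd.q mu W Fm.pd.x (j k0)) := hi
    rw [hj0] at hi'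
    exact hi'
  have hgC : ∀ i k, ‖PowerSeries.coeff k (Cv.pd.x i)‖ ≤ (A : ℝ) * (B : ℝ) ^ k := by
    rw [hCx]
    exact hgr
  obtain ⟨hev, hevy⟩ := evy_rlx Cv.pd (by positivity) (by positivity) hgC hTn hTx hyv huniq
  let P : Ptd ν := ⟨D, A ^ K, F, Cv, k0, T, ((a ^ m : ℕ) : ℤ), y, hev, hTx, hyv⟩
  have habs : |((P.x : ℤ) : ℝ)| = (a : ℝ) ^ m := by
    show |((((a ^ m : ℕ) : ℤ)) : ℝ)| = (a : ℝ) ^ m
    push_cast
    rw [abs_of_nonneg (by positivity)]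
  have ham1 : (a : ℝ) ≤ (a : ℝ) ^ m := le_self_pow₀ haR1 (by omega)
  have hκ : (A : ℝ) ^ K = (a : ℝ) ^ ((K0 * n + 4) * K) := by
    rw [hAR, ← pow_mul]
  have hκm : (A : ℝ) ^ K ≤ ((a : ℝ) ^ m) ^ ((K0 * n + 4) * K) := by
    rw [hκ]
    exact pow_le_pow_left₀ (by positivity) ham1 _
  refine ⟨P, rfl, ⟨(B : ℝ), ?_⟩, ?_⟩
  · refine ⟨hBR2, ?_, ?_, ?_, ?_, hevy⟩
    · rw [habs]
      exact (by exact_mod_cast hpow c (by omega) : (B : ℝ) ^ c ≤ a).trans ham1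
    · show ((Cv.pd.q : ℕ) : ℝ) ≤ B
      rw [hCq]
      exact_mod_cast Fm.q_le
    · intro i k
      rw [habs]
      refine (hgC i k).trans (mul_le_mul_of_nonneg_right ?_ (by positivity))
      refine le_trans ?_ hκm
      have hA1 : (1 : ℝ) ≤ A := by
        have : 1 ≤ A := ha1.trans haA
        exact_mod_cast this
      exact le_self_pow₀ hA1 (by omega)
    · rw [habs]
      show ((A ^ K : ℕ) : ℝ) ≤ _
      rw [Nat.cast_pow]
      exact hκm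
  · rw [← hθ]
    obtain ⟨h1, h2, h3⟩ := tau_gd (mu := mu) hm Fm.pd P θ
      (fun u => tyf_AA (tyf_int Fm.monic hR u)) lam hCe j
      (by
        show (j k0).2 = 1
        rw [hj0])
      (by
        rw [← hW]
        exact hZi)
      (fun i => by
        show Cv.pd.x i = _
        rw [hCx, hZ, hW])
    exact ⟨fun i => (j i).2, h1, h2, h3, fun u w =>
      (eqC Fm mu W hZi (fI D F) j hjinj hsplit u w).le⟩

end Pool.Agent.H98.TY
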